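import Mathlib

/-!
# Descent in a ring with an involution
-/

namespace MP82
namespace SC

/-- Abstract divisibility lemma. -/
theorem abstract_dvd {R : Type*} [CommRing R] (st : R →+* R) (π P u v c d : R) (φ : ℕ)
    (ha : ∀ y, π * y = 0 → y = 0)
    (hb : ∀ y, π ∣ y * st y → π ∣ y)
    (hst : st π = u * π) (huv : u * v = 1)
    (hd1 : π ^ φ = P * c) (hd2 : P = π ^ φ * d) (γ : ℕ) (y : R) (hy : P ^ (2 * γ) ∣ y * st y) :
    P ^ γ ∣ y := by
  have key : ∀ k : ℕ, ∀ y, π ^ (2 * k) ∣ y * st y → π ^ k ∣ y := by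
    intro k
    induction k with
    | zero => intro y _; simp
    | succ k ih =>
      intro y hy
      have h1 : π ∣ y * st y := by
        refine dvd_trans ?_ hy
        exact dvd_pow_self π (by omega)
      obtain ⟨z, rfl⟩ := hb y h1
      obtain ⟨e, he⟩ := hy
      rw [map_mul, hst] at he
      have h2 : π * (π * (u * (z * st z) - π ^ (2 * k) * e)) = 0 := by
        have h3 : π ^ (2 * (k + 1)) = π * π * π ^ (2 * k) := by
          rw [show 2 * (k + 1) = 2 * k + 2 by ring, pow_add]; ring
        rw [h3] at he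
        linear_combination he
      have h4 := ha _ (ha _ h2)
      have h5 : z * st z = π ^ (2 * k) * (v * e) := by
        have h6 : z * st z = u * v * (z * st z) := by rw [huv, one_mul]
        rw [h6]
        linear_combination v * h4
      obtain ⟨w, hw⟩ := ih z ⟨_, h5⟩
      exact ⟨w, by rw [hw]; ring⟩
  have h1 : π ^ (2 * (φ * γ)) ∣ y * st y := by
    refine dvd_trans ⟨d ^ (2 * γ), ?_⟩ hy
    rw [hd2, mul_pow, ← pow_mul]
    congr 2
    ring
  obtain ⟨w, hw⟩ := key (φ * γ) y h1
  refine ⟨c ^ γ * w, ?_⟩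
  rw [hw, pow_mul, hd1, mul_pow]
  ring

end SC
end MP82
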