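import Mathlib
import Pool.Agent.Lib.MP_82ec8b_co.SC.DL1

/-!
# The group ring of `H × ZMod (p ^ (a + 1))`
-/

namespace MP82
namespace SC

open AddMonoidAlgebra Finset

section ring

set_option linter.unusedSectionVars false

variable (H : Type) [AddCommGroup H] (p a : ℕ) [hp : Fact p.Prime]

/-- the group ring. -/
abbrev C : Type := AddMonoidAlgebra ℤ (H × ZMod (p ^ (a + 1)))

/-- the generator of the cyclic factor. -/
noncomputable def X : C H p a := single ((0 : H), (1 : ZMod (p ^ (a + 1)))) 1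

/-- sum over the cyclic factor. -/
noncomputable def aug : C H p a →+* AddMonoidAlgebra ℤ H :=
  mapDomainRingHom ℤ (AddMonoidHom.fst H (ZMod (p ^ (a + 1))))

/-- the inclusion. -/
noncomputable def inc : AddMonoidAlgebra ℤ H →+* C H p a :=
  mapDomainRingHom ℤ (AddMonoidHom.inl H (ZMod (p ^ (a + 1))))

/-- the involution. -/
noncomputable def st : C H p a →+* C H p a :=
  mapDomainRingHom ℤ (negAddMonoidHom : (H × ZMod (p ^ (a + 1))) →+ _)

variable {H p a}

lemma aug_single (g : H × ZMod (p ^ (a + 1))) (r : ℤ) :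
    aug H p a (single g r) = single g.1 r := by
  simp [aug]

lemma inc_single (h : H) (r : ℤ) : inc H p a (single h r) = single (h, 0) r := by
  simp [inc]

lemma st_single (g : H × ZMod (p ^ (a + 1))) (r : ℤ) : st H p a (single g r) = single (-g) r := by
  simp [st]

lemma X_pow (k : ℕ) : (X H p a) ^ k = single ((0 : H), (k : ZMod (p ^ (a + 1)))) 1 := by
  rw [X, AddMonoidAlgebra.single_pow, one_pow]
  congr 1
  ext
  · simp
  · simp

lemma X_pow_card : (X H p a) ^ (p ^ (a + 1)) = 1 := by
  rw [X_pow, AddMonoidAlgebra.one_def]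
  congr 1
  ext
  · simp
  · simp

lemma single_eq (g : H × ZMod (p ^ (a + 1))) (r : ℤ) :
    (single g r : C H p a) = inc H p a (single g.1 r) * (X H p a) ^ g.2.val := by
  have : NeZero (p ^ (a + 1)) := ⟨(pow_pos hp.out.pos _).ne'⟩
  rw [inc_single, X_pow, AddMonoidAlgebra.single_mul_single, mul_one]
  congr 1
  ext
  · simp
  · simp

/-- `y - ι(aug y)` is a multiple of `X - 1`. -/
lemma sub_inc_aug (y : C H p a) : (X H p a - 1) ∣ y - inc H p a (aug H p a y) := by
  induction y using AddMonoidAlgebra.induction_linear with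
  | zero => simp
  | add x y hx hy =>
    rw [map_add, map_add, add_sub_add_comm]
    exact dvd_add hx hy
  | single g r =>
    rw [aug_single, single_eq g r]
    have h1 : (X H p a - 1) ∣ (X H p a) ^ g.2.val - 1 := sub_one_dvd_pow_sub_one _ _
    obtain ⟨w, hw⟩ := h1
    refine ⟨inc H p a (single g.1 r) * w, ?_⟩
    linear_combination inc H p a (single g.1 r) * hw

lemma aug_X : aug H p a (X H p a) = 1 := by
  rw [X, aug_single, AddMonoidAlgebra.one_def]

variable (H p a) in
/-- the annihilator of `X ^ m - 1`, `m = p ^ a`. -/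
noncomputable def J : Ideal (C H p a) where
  carrier := {y | ((X H p a) ^ (p ^ a) - 1) * y = 0}
  add_mem' := by
    intro x y hx hy
    simp only [Set.mem_ofPred_eq] at hx hy ⊢
    rw [mul_add, hx, hy, add_zero]
  zero_mem' := by simp
  smul_mem' := by
    intro c x hx
    simp only [Set.mem_ofPred_eq, smul_eq_mul] at hx ⊢
    rw [mul_left_comm, hx, mul_zero]

lemma mem_J {y : C H p a} : y ∈ J H p a ↔ ((X H p a) ^ (p ^ a) - 1) * y = 0 := Iff.rfl

variable (H p a) in
/-- the sum over the subgroup of order `p`. -/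
noncomputable def P1 : C H p a := ∑ i ∈ range p, ((X H p a) ^ (p ^ a)) ^ i

lemma P1_mem : P1 H p a ∈ J H p a := by
  rw [mem_J, P1, mul_comm, geom_sum_mul, ← pow_mul, ← pow_succ, X_pow_card, sub_self]

lemma aug_P1 : aug H p a (P1 H p a) = (p : AddMonoidAlgebra ℤ H) := by
  rw [P1, map_sum]
  simp [aug_X]

lemma P1_sub_p : (X H p a - 1) ∣ P1 H p a - (p : C H p a) := by
  have h := sub_inc_aug (P1 H p a)
  rwa [aug_P1, map_natCast] at h

/-- torsion-freeness. -/
lemma p_mul_eq_zero {y : C H p a} (h : (p : C H p a) * y = 0) : y = 0 := by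
  rw [← nsmul_eq_mul] at h
  ext g
  have h1 := congrArg (fun z : C H p a => z.coeff g) h
  have h3 : (p : ℤ) * y.coeff g = 0 := by
    rw [← nsmul_eq_mul, ← AddMonoidAlgebra.coeff_smul_apply, h1]
    simp
  rcases mul_eq_zero.1 h3 with h2 | h2
  · exact absurd h2 (by exact_mod_cast hp.out.ne_zero)
  · simpa using h2

/-- (a): `X - 1` is a non-zero-divisor modulo `J`. -/
lemma cond_a {y : C H p a} (h : (X H p a - 1) * y ∈ J H p a) : y ∈ J H p a := by
  obtain ⟨w, hw⟩ := P1_sub_p (H := H) (p := p) (a := a)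
  rw [mem_J] at h ⊢
  have h1 : ((X H p a) ^ (p ^ a) - 1) * P1 H p a = 0 := mem_J.1 P1_mem
  apply p_mul_eq_zero
  linear_combination y * h1 - w * h - ((X H p a) ^ (p ^ a) - 1) * y * hw

/-- (c) -/
lemma cond_c : st H p a (X H p a - 1) = (-(X H p a) ^ (p ^ (a + 1) - 1)) * (X H p a - 1) := by
  have h1 : st H p a (X H p a) = (X H p a) ^ (p ^ (a + 1) - 1) := by
    have hpos : 1 ≤ p ^ (a + 1) := Nat.one_le_pow _ _ hp.out.pos
    rw [X, st_single, ← X, X_pow]
    congr 1
    ext
    · simp
    · rw [Nat.cast_sub hpos, ZMod.natCast_self]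
      simp
  have h2 : (X H p a) ^ (p ^ (a + 1) - 1) * X H p a = 1 := by
    rw [← pow_succ, Nat.sub_add_cancel (Nat.one_le_pow _ _ hp.out.pos), X_pow_card]
  rw [map_sub, map_one, h1]
  linear_combination h2

lemma st_mem_J {y : C H p a} (h : y ∈ J H p a) : st H p a y ∈ J H p a := by
  rw [mem_J] at h ⊢
  have h1 : st H p a (X H p a) = (X H p a) ^ (p ^ (a + 1) - 1) := by
    have h2 := cond_c (H := H) (p := p) (a := a)
    have h3 : (X H p a) ^ (p ^ (a + 1) - 1) * X H p a = 1 := by
      rw [← pow_succ, Nat.sub_add_cancel (Nat.one_le_pow _ _ hp.out.pos), X_pow_card]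
    rw [map_sub, map_one] at h2
    linear_combination h2 - h3
  have h2 := congrArg (st H p a) h
  rw [map_mul, map_zero, map_sub, map_one, map_pow, h1] at h2
  have h3 : ((X H p a) ^ (p ^ (a + 1) - 1)) ^ (p ^ a) * (X H p a) ^ (p ^ a) = 1 := by
    rw [← mul_pow, ← pow_succ, Nat.sub_add_cancel (Nat.one_le_pow _ _ hp.out.pos), X_pow_card,
      one_pow]
  linear_combination (-(X H p a) ^ (p ^ a)) * h2 + h3 * st H p a y

end ring

end SC
end MP82
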