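import Mathlib
import Pool.Agent.Lib.MP_82ec8b_co.SC.DL2

/-!
# Divisibility for a self-conjugate prime
-/

namespace MP82
namespace SC

open AddMonoidAlgebra Finset

section aux

/-- sums over `ZMod n` as sums over a range. -/
lemma sum_zmod {M : Type*} [AddCommMonoid M] (n : ℕ) [NeZero n] (f : ZMod n → M) :
    ∑ s, f s = ∑ k ∈ range n, f (k : ZMod n) := by
  symm
  refine Finset.sum_bij (fun k _ => (k : ZMod n)) (fun _ _ => Finset.mem_univ _) ?_ ?_
    (fun _ _ => rfl)
  · intro x hx y hy h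
    have h1 := (ZMod.natCast_eq_natCast_iff' x y n).1 h
    rwa [Nat.mod_eq_of_lt (Finset.mem_range.1 hx), Nat.mod_eq_of_lt (Finset.mem_range.1 hy)] at h1
  · intro s _
    exact ⟨s.val, Finset.mem_range.2 (ZMod.val_lt s), ZMod.natCast_zmod_val s⟩

lemma sum_range_mul' {M : Type*} [AddCommMonoid M] (m k : ℕ) (f : ℕ → M) :
    ∑ i ∈ range (m * k), f i = ∑ j ∈ range k, ∑ c ∈ range m, f (c + m * j) := by
  induction k with
  | zero => simp
  | succ k ih =>
    rw [Nat.mul_succ, Finset.sum_range_add, ih, Finset.sum_range_succ]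
    congr 1
    exact Finset.sum_congr rfl (fun c _ => by rw [add_comm])

/-- splitting along the subgroup of order `p`. -/
lemma sum_split {M : Type*} [AddCommMonoid M] (p a : ℕ) [NeZero p] (f : ZMod (p ^ (a + 1)) → M) :
    ∑ s, f s = ∑ c ∈ range (p ^ a), ∑ j ∈ range p,
      f ((c : ZMod (p ^ (a + 1))) + (p ^ a : ℕ) * (j : ZMod (p ^ (a + 1)))) := by
  have hr : range (p ^ (a + 1)) = range (p ^ a * p) := by rw [pow_succ]
  rw [sum_zmod, hr, sum_range_mul', Finset.sum_comm]
  refine Finset.sum_congr rfl (fun c _ => Finset.sum_congr rfl (fun j _ => ?_))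
  push_cast
  rfl

lemma per_step (p a : ℕ) {M : Type*} (f : ZMod (p ^ (a + 1)) → M)
    (hf : ∀ s, f (s + (p ^ a : ℕ)) = f s) (s : ZMod (p ^ (a + 1))) (j : ℕ) :
    f (s + (p ^ a : ℕ) * (j : ZMod (p ^ (a + 1)))) = f s := by
  induction j with
  | zero => simp
  | succ j ih =>
    rw [← ih, ← hf (s + (p ^ a : ℕ) * (j : ZMod (p ^ (a + 1))))]
    congr 1
    push_cast
    ring

lemma dvd_sum_of_per (p a : ℕ) [NeZero p] (f : ZMod (p ^ (a + 1)) → ℤ)
    (hf : ∀ s, f (s + (p ^ a : ℕ)) = f s) : (p : ℤ) ∣ ∑ s, f s := by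
  rw [sum_split]
  refine Finset.dvd_sum (fun c _ => ?_)
  rw [Finset.sum_congr rfl (fun j _ => per_step p a f hf _ j), Finset.sum_const,
    Finset.card_range, nsmul_eq_mul]
  exact dvd_mul_right _ _

end aux

section ring

set_option linter.unusedSectionVars false

variable {H : Type} [AddCommGroup H] [Fintype H] {p a : ℕ} [hp : Fact p.Prime]

instance : NeZero (p ^ (a + 1)) := ⟨(pow_pos hp.out.pos _).ne'⟩

lemma eq_sum_single {G : Type} [Fintype G] {R : Type} [Semiring R] (y : AddMonoidAlgebra R G) :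
    y = ∑ g, single g (y.coeff g) := by
  classical
  ext g
  rw [AddMonoidAlgebra.coeff_sum, Finsupp.coe_finsetSum, Finset.sum_apply,
    Finset.sum_eq_single g]
  · simp
  · intro b _ hb
    simp [Finsupp.single_apply, hb]
  · simp

/-- reduction modulo `p` and modulo the cyclic factor. -/
noncomputable def rho : C H p a →+* AddMonoidAlgebra (ZMod p) H :=
  (mapRingHom H (Int.castRingHom (ZMod p))).comp (aug H p a)

lemma coeff_X_mul (k : ℕ) (y : C H p a) (g : H × ZMod (p ^ (a + 1))) :
    ((X H p a) ^ k * y).coeff (g + (0, (k : ZMod (p ^ (a + 1))))) = y.coeff g := by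
  rw [X_pow]
  induction y using AddMonoidAlgebra.induction_linear with
  | zero => simp
  | add x y hx hy =>
    rw [mul_add, AddMonoidAlgebra.coeff_add, AddMonoidAlgebra.coeff_add, Finsupp.add_apply,
      Finsupp.add_apply, hx, hy]
  | single g' r =>
    classical
    rw [AddMonoidAlgebra.single_mul_single, one_mul, AddMonoidAlgebra.coeff_single,
      AddMonoidAlgebra.coeff_single, Finsupp.single_apply, Finsupp.single_apply, add_comm g]
    simp only [add_right_inj]

lemma per_of_mem {y : C H p a} (h : y ∈ J H p a) (g : H × ZMod (p ^ (a + 1))) :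
    y.coeff (g + (0, ((p ^ a : ℕ) : ZMod (p ^ (a + 1))))) = y.coeff g := by
  have h1 : (X H p a) ^ (p ^ a) * y = y := by
    rw [mem_J] at h
    linear_combination h
  have h2 := coeff_X_mul (p ^ a) y g
  rwa [h1] at h2

lemma rho_J {v : C H p a} (h : v ∈ J H p a) : rho v = 0 := by
  have h1 : aug H p a v = ∑ h' : H, single h' (∑ s, v.coeff (h', s)) := by
    conv_lhs => rw [eq_sum_single v]
    rw [map_sum, Fintype.sum_prod_type]
    refine Finset.sum_congr rfl (fun h' _ => ?_)
    rw [Finset.sum_congr rfl (fun s _ => aug_single (h', s) _)]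
    exact (map_sum (AddMonoidAlgebra.singleAddHom h') _ _).symm
  rw [rho, RingHom.comp_apply, h1, map_sum]
  refine Finset.sum_eq_zero (fun h' _ => ?_)
  rw [AddMonoidAlgebra.mapRingHom_single]
  have h2 : (p : ℤ) ∣ ∑ s, v.coeff (h', s) := by
    refine dvd_sum_of_per p a _ (fun s => ?_)
    have h3 := per_of_mem h (h', s)
    rw [← h3]
    congr 2
    simp
  have h4 : (Int.castRingHom (ZMod p)) (∑ s, v.coeff (h', s)) = 0 :=
    (ZMod.intCast_zmod_eq_zero_iff_dvd _ p).2 h2
  rw [h4, AddMonoidAlgebra.single_zero]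

lemma exists_of_map_zero {w : AddMonoidAlgebra ℤ H}
    (h : mapRingHom H (Int.castRingHom (ZMod p)) w = 0) :
    ∃ b : AddMonoidAlgebra ℤ H, w = (p : AddMonoidAlgebra ℤ H) * b := by
  have h1 : ∀ g, ∃ b : ℤ, w.coeff g = p * b := by
    intro g
    have h2 := congrArg (fun z : AddMonoidAlgebra (ZMod p) H => z.coeff g) h
    simp only [AddMonoidAlgebra.coeff_mapRingHom, AddMonoidAlgebra.coeff_zero, Finsupp.coe_zero,
      Pi.zero_apply] at h2
    exact (ZMod.intCast_zmod_eq_zero_iff_dvd _ p).1 h2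
  choose b hb using h1
  refine ⟨∑ g, single g (b g), ?_⟩
  rw [eq_sum_single w, ← nsmul_eq_mul, Finset.smul_sum]
  refine Finset.sum_congr rfl (fun g _ => ?_)
  rw [hb g, AddMonoidAlgebra.smul_single, nsmul_eq_mul]

lemma of_rho {y : C H p a} (h : rho y = 0) :
    ∃ z v, v ∈ J H p a ∧ y = (X H p a - 1) * z + v := by
  obtain ⟨b, hb⟩ := exists_of_map_zero (p := p) (w := aug H p a y) h
  obtain ⟨z0, hz0⟩ := sub_inc_aug y
  obtain ⟨w, hw⟩ := P1_sub_p (H := H) (p := p) (a := a)
  refine ⟨z0 - w * inc H p a b, P1 H p a * inc H p a b, (J H p a).mul_mem_right _ P1_mem, ?_⟩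
  rw [hb, map_mul, map_natCast] at hz0
  linear_combination hz0 - inc H p a b * hw

lemma rho_X : rho (X H p a - 1) = 0 := by
  rw [rho, RingHom.comp_apply, map_sub, map_sub, aug_X, map_one, map_one, map_one, sub_self]

end ring

section frob

variable {H : Type} [AddCommGroup H] {p : ℕ} [hp : Fact p.Prime]

instance : CharP (AddMonoidAlgebra (ZMod p) H) p :=
  charP_of_injective_algebraMap (R := ZMod p) (A := AddMonoidAlgebra (ZMod p) H)
    (fun x y h => by
      have h1 := congrArg (fun z : AddMonoidAlgebra (ZMod p) H => z.coeff 0) h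
      simpa using h1) p

/-- the involution downstairs. -/
noncomputable def stH : AddMonoidAlgebra (ZMod p) H →+* AddMonoidAlgebra (ZMod p) H :=
  mapDomainRingHom (ZMod p) (negAddMonoidHom : H →+ H)

lemma stH_eq {x : ℕ} (hneg : ∀ h : H, (p ^ x) • h = -h) (z : AddMonoidAlgebra (ZMod p) H) :
    stH z = z ^ (p ^ x) := by
  induction z using AddMonoidAlgebra.induction_linear with
  | zero => rw [map_zero, zero_pow (pow_pos hp.out.pos _).ne']
  | add y z hy hz => rw [map_add, hy, hz, add_pow_char_pow]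
  | single h r =>
    rw [AddMonoidAlgebra.single_pow, hneg, ZMod.pow_card_pow]
    simp [stH]

lemma stH_stH (z : AddMonoidAlgebra (ZMod p) H) : stH (stH z) = z := by
  induction z using AddMonoidAlgebra.induction_linear with
  | zero => simp
  | add y z hy hz => rw [map_add, map_add, hy, hz]
  | single h r => simp [stH]

lemma eq_zero_of_mul {x : ℕ} (hx : 1 ≤ x) (hneg : ∀ h : H, (p ^ x) • h = -h)
    (z : AddMonoidAlgebra (ZMod p) H) (h : z * stH z = 0) : z = 0 := by
  have h1 : z ^ (p ^ x + 1) = 0 := by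
    rw [stH_eq hneg] at h
    rw [pow_succ, mul_comm]
    exact h
  have h2 : stH (stH z) = z := stH_stH z
  rw [stH_eq hneg, stH_eq hneg, ← pow_mul] at h2
  have h3 : 2 ≤ p ^ x := by
    calc 2 ≤ p := hp.out.two_le
      _ = p ^ 1 := (pow_one p).symm
      _ ≤ p ^ x := Nat.pow_le_pow_right hp.out.pos hx
  have h4 : p ^ x + 1 ≤ p ^ x * p ^ x := by nlinarith
  rw [← h2]
  exact pow_eq_zero_of_le h4 h1

end frob

end SC
end MP82
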