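import Mathlib
import Pool.Agent.Lib.MP_82ec8b_co.SC.DL3

/-!
# Divisibility for a self-conjugate prime: conclusion
-/

namespace MP82
namespace SC

open AddMonoidAlgebra Finset

section ring

set_option linter.unusedSectionVars false

variable {H : Type} [AddCommGroup H] [Fintype H] {p a : ℕ} [hp : Fact p.Prime]

lemma rho_st (y : C H p a) : rho (st H p a y) = stH (rho y) := by
  induction y using AddMonoidAlgebra.induction_linear with
  | zero => simp
  | add x y hx hy => rw [map_add, map_add, hx, hy, map_add, map_add]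
  | single g r =>
    rw [st_single, rho, RingHom.comp_apply, RingHom.comp_apply, aug_single, aug_single,
      AddMonoidAlgebra.mapRingHom_single, AddMonoidAlgebra.mapRingHom_single]
    simp [stH]

/-- (b): self-conjugacy. -/
lemma cond_b {x : ℕ} (hx : 1 ≤ x) (hneg : ∀ h : H, (p ^ x) • h = -h) {y w : C H p a}
    (h : (X H p a - 1) * w - y * st H p a y ∈ J H p a) :
    ∃ z v, v ∈ J H p a ∧ y = (X H p a - 1) * z + v := by
  apply of_rho
  apply eq_zero_of_mul hx hneg
  have h1 := rho_J h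
  rw [map_sub, map_mul, rho_X, zero_mul, zero_sub, neg_eq_zero, map_mul, rho_st] at h1
  exact h1

end ring

section poly

open Polynomial

variable {p a : ℕ} [hp : Fact p.Prime]

/-- the cyclotomic polynomial modulo `p`. -/
lemma exists_poly : ∃ g : ℤ[X], (Polynomial.X - 1) ^ (p ^ (a + 1) - p ^ a) =
    (∑ i ∈ range p, ((Polynomial.X : ℤ[X]) ^ p ^ a) ^ i) +
      (p : ℤ[X]) * (-1 + (Polynomial.X - 1) * g) := by
  have hpos : p ^ (a + 1) - p ^ a ≠ 0 := by
    have h1 : p ^ a < p ^ (a + 1) := Nat.pow_lt_pow_right hp.out.one_lt (Nat.lt_succ_self a)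
    omega
  have h1 : Polynomial.map (Int.castRingHom (ZMod p))
      ((Polynomial.X - 1) ^ (p ^ (a + 1) - p ^ a) -
        (∑ i ∈ range p, ((Polynomial.X : ℤ[X]) ^ p ^ a) ^ i)) = 0 := by
    rw [← Polynomial.cyclotomic_prime_pow_eq_geom_sum hp.out, Polynomial.map_sub,
      Polynomial.map_cyclotomic, Polynomial.map_pow, Polynomial.map_sub, Polynomial.map_X,
      Polynomial.map_one]
    have h2 := Polynomial.cyclotomic_mul_prime_pow_eq (ZMod p) (p := p) (m := 1)
      (by rw [Nat.dvd_one]; exact hp.out.ne_one) (k := a + 1) (Nat.succ_pos a)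
    rw [mul_one, Polynomial.cyclotomic_one, Nat.add_sub_cancel] at h2
    rw [h2, sub_self]
  have h2 : ∀ n, (p : ℤ) ∣ ((Polynomial.X - 1) ^ (p ^ (a + 1) - p ^ a) -
        (∑ i ∈ range p, ((Polynomial.X : ℤ[X]) ^ p ^ a) ^ i)).coeff n := by
    intro n
    have h3 := congrArg (fun q : (ZMod p)[X] => q.coeff n) h1
    simp only [Polynomial.coeff_map, Polynomial.coeff_zero] at h3
    exact (ZMod.intCast_zmod_eq_zero_iff_dvd _ p).1 h3
  obtain ⟨c, hc⟩ := (Polynomial.C_dvd_iff_dvd_coeff _ _).2 h2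
  have h4 : c.eval 1 = -1 := by
    have h5 := congrArg (Polynomial.eval 1) hc
    rw [Polynomial.eval_sub, Polynomial.eval_pow, Polynomial.eval_sub, Polynomial.eval_X,
      Polynomial.eval_one, sub_self, zero_pow hpos, Polynomial.eval_finsetSum,
      Polynomial.eval_mul, Polynomial.eval_C] at h5
    simp only [Polynomial.eval_pow, Polynomial.eval_X, one_pow, Finset.sum_const,
      Finset.card_range, nsmul_eq_mul, mul_one] at h5
    have h6 : (p : ℤ) ≠ 0 := by exact_mod_cast hp.out.ne_zero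
    have h7 : (p : ℤ) * (c.eval 1 + 1) = 0 := by linear_combination -h5
    rcases mul_eq_zero.1 h7 with h8 | h8
    · exact absurd h8 h6
    · omega
  have h5 : (Polynomial.X - Polynomial.C (1 : ℤ)) ∣ c + 1 := by
    rw [Polynomial.dvd_iff_isRoot, Polynomial.IsRoot, Polynomial.eval_add, h4,
      Polynomial.eval_one]
    norm_num
  obtain ⟨g, hg⟩ := h5
  refine ⟨g, ?_⟩
  have h6 : c = -1 + (Polynomial.X - 1) * g := by
    rw [Polynomial.C_1] at hg
    linear_combination hg
  rw [← h6]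
  have h7 : Polynomial.C (p : ℤ) = (p : ℤ[X]) := by simp
  rw [h7] at hc
  linear_combination hc

end poly

section main

set_option linter.unusedSectionVars false

variable {H : Type} [AddCommGroup H] [Fintype H] {p a : ℕ} [hp : Fact p.Prime]

lemma exists_g : ∃ g : C H p a, (X H p a - 1) ^ (p ^ (a + 1) - p ^ a) =
    P1 H p a + (p : C H p a) * (-1 + (X H p a - 1) * g) := by
  obtain ⟨g, hg⟩ := exists_poly (p := p) (a := a)
  refine ⟨Polynomial.aeval (X H p a) g, ?_⟩
  have h1 := congrArg (Polynomial.aeval (X H p a)) hg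
  simp only [map_pow, map_sub, map_add, map_mul, map_neg, map_one, map_sum, map_natCast,
    Polynomial.aeval_X] at h1
  exact h1

/-- the involution modulo `J`. -/
noncomputable def stR : C H p a ⧸ J H p a →+* C H p a ⧸ J H p a :=
  Ideal.quotientMap (J H p a) (st H p a) (fun _ h => Ideal.mem_comap.2 (st_mem_J h))

/-- divisibility modulo `J`. -/
lemma dvd_quot {x : ℕ} (hx : 1 ≤ x) (hneg : ∀ h : H, (p ^ x) • h = -h) (γ : ℕ) (Y : C H p a)
    (N : C H p a) (hY : Y * st H p a Y = (p : C H p a) ^ (2 * γ) * N) :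
    ∃ W : C H p a, Y - (p : C H p a) ^ γ * W ∈ J H p a := by
  obtain ⟨g, hg⟩ := exists_g (H := H) (p := p) (a := a)
  set φ := p ^ (a + 1) - p ^ a
  set q := Ideal.Quotient.mk (J H p a) with hq
  have hstq : ∀ y, stR (q y) = q (st H p a y) := fun y => Ideal.quotientMap_mk
  have hP1 : q (P1 H p a) = 0 := Ideal.Quotient.eq_zero_iff_mem.2 P1_mem
  have hg' : (q (X H p a - 1)) ^ φ = q (p : C H p a) * (-1 + q (X H p a - 1) * q g) := by
    rw [← map_pow, hg, map_add, hP1, zero_add, map_mul, map_add, map_mul, map_neg, map_one]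
  have main := abstract_dvd (stR (H := H) (p := p) (a := a)) (q (X H p a - 1))
    (q (p : C H p a)) (q (-(X H p a) ^ (p ^ (a + 1) - 1))) (q (-(X H p a)))
    (-1 + q (X H p a - 1) * q g)
    (q (p : C H p a) * (q g) ^ φ - ∑ i ∈ range φ, (q (X H p a - 1) * q g) ^ i) φ
    ?_ ?_ ?_ ?_ hg' ?_ γ (q Y) ?_
  · obtain ⟨w, hw⟩ := main
    obtain ⟨W, rfl⟩ := Ideal.Quotient.mk_surjective w
    refine ⟨W, ?_⟩
    rw [← Ideal.Quotient.eq_zero_iff_mem, map_sub, map_mul, map_pow, ← hq, hw, sub_self]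
  · intro y hy
    obtain ⟨Y', rfl⟩ := Ideal.Quotient.mk_surjective y
    rw [← hq, ← map_mul] at hy
    exact Ideal.Quotient.eq_zero_iff_mem.2 (cond_a (Ideal.Quotient.eq_zero_iff_mem.1 hy))
  · intro y hy
    obtain ⟨Y', rfl⟩ := Ideal.Quotient.mk_surjective y
    obtain ⟨w, hw⟩ := hy
    obtain ⟨W, rfl⟩ := Ideal.Quotient.mk_surjective w
    rw [← hq, hstq, ← map_mul, ← map_mul] at hw
    have h1 : (X H p a - 1) * W - Y' * st H p a Y' ∈ J H p a := by
      rw [← Ideal.Quotient.eq_zero_iff_mem, ← hq, map_sub, hw, sub_self]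
    obtain ⟨z, v, hv, hz⟩ := cond_b hx hneg h1
    refine ⟨q z, ?_⟩
    rw [← hq, hz, map_add, map_mul, (Ideal.Quotient.eq_zero_iff_mem.2 hv : q v = 0), add_zero]
  · rw [hstq, cond_c, map_mul]
  · rw [← map_mul, ← map_one q]
    congr 1
    rw [neg_mul_neg, ← pow_succ, Nat.sub_add_cancel (Nat.one_le_pow _ _ hp.out.pos), X_pow_card]
  · have h1 := mul_neg_geom_sum (q (X H p a - 1) * q g) φ
    have h2 : (q (X H p a - 1) * q g) ^ φ = (q (X H p a - 1)) ^ φ * (q g) ^ φ := mul_pow _ _ _
    rw [h2] at h1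
    linear_combination (-q (p : C H p a)) * h1 + (∑ i ∈ range φ, (q (X H p a - 1) * q g) ^ i) * hg'
  · refine ⟨q N, ?_⟩
    rw [hstq, ← map_mul, hY, map_mul, map_pow]

/-- A function with vanishing autocorrelation, self-conjugate prime: congruence along the
subgroup of order `p`. -/
theorem dl {x : ℕ} (hx : 1 ≤ x) (hneg : ∀ h : H, (p ^ x) • h = -h) (γ : ℕ)
    (F : H × ZMod (p ^ (a + 1)) → ℤ) (N : ℤ) (hN : (p : ℤ) ^ (2 * γ) ∣ N)
    (hF0 : ∑ g, F g * F g = N) (hF : ∀ d, d ≠ 0 → ∑ g, F g * F (g + d) = 0)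
    (g : H × ZMod (p ^ (a + 1))) :
    (p : ℤ) ^ γ ∣ F (g + (0, ((p ^ a : ℕ) : ZMod (p ^ (a + 1))))) - F g := by
  classical
  set Y : C H p a := ∑ g, single g (F g) with hY
  have hYc : ∀ g, Y.coeff g = F g := by
    intro g
    rw [hY, AddMonoidAlgebra.coeff_sum, Finsupp.coe_finsetSum, Finset.sum_apply,
      Finset.sum_eq_single g]
    · simp
    · intro b _ hb
      simp [hb]
    · simp
  obtain ⟨N', rfl⟩ := hN
  have hYY : Y * st H p a Y = (p : C H p a) ^ (2 * γ) * (N' : C H p a) := by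
    have h1 : Y * st H p a Y = ∑ d : H × ZMod (p ^ (a + 1)),
        single (-d) (∑ g, F g * F (g + d)) := by
      have h2 : st H p a Y = ∑ g, single (-g) (F g) := by
        rw [hY, map_sum]
        exact Finset.sum_congr rfl (fun g _ => st_single g _)
      rw [h2, hY, Finset.sum_mul_sum]
      have h3 : ∀ d : H × ZMod (p ^ (a + 1)),
          (single (-d) (∑ g, F g * F (g + d)) : C H p a) =
            ∑ g, single (-d) (F g * F (g + d)) := fun d =>
        map_sum (AddMonoidAlgebra.singleAddHom (-d)) _ _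
      rw [Finset.sum_congr rfl (fun d _ => h3 d)]
      conv_rhs => rw [Finset.sum_comm]
      refine Finset.sum_congr rfl (fun g _ => ?_)
      rw [← Equiv.sum_comp (Equiv.addLeft g) (fun j => single g (F g) * single (-j) (F j))]
      refine Finset.sum_congr rfl (fun d _ => ?_)
      rw [Equiv.coe_addLeft, AddMonoidAlgebra.single_mul_single]
      congr 1
      rw [neg_add, add_neg_cancel_left]
    rw [h1, Finset.sum_eq_single 0]
    · rw [neg_zero]
      simp only [add_zero]
      rw [hF0]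
      have h4 : ((p : C H p a) ^ (2 * γ) * (N' : C H p a)) =
          (((p : ℤ) ^ (2 * γ) * N' : ℤ) : C H p a) := by
        push_cast
        rfl
      rw [h4]
      rfl
    · intro d _ hd
      rw [hF d hd, AddMonoidAlgebra.single_zero]
    · simp
  obtain ⟨W, hW⟩ := dvd_quot hx hneg γ Y (N' : C H p a) hYY
  have h1 := per_of_mem hW g
  have h2 : ∀ g, (Y - (p : C H p a) ^ γ * W).coeff g = F g - (p : ℤ) ^ γ * W.coeff g := by
    intro g
    have h3 : (p : C H p a) ^ γ * W = (p ^ γ) • W := by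
      rw [nsmul_eq_mul]
      push_cast
      rfl
    rw [AddMonoidAlgebra.coeff_sub, Finsupp.sub_apply, hYc, h3,
      AddMonoidAlgebra.coeff_smul_apply, nsmul_eq_mul]
    push_cast
    rfl
  rw [h2, h2] at h1
  exact ⟨W.coeff (g + (0, ((p ^ a : ℕ) : ZMod (p ^ (a + 1))))) - W.coeff g, by
    linear_combination h1⟩

end main

end SC
end MP82
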