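import Mathlib
import Pool.Agent.Lib.MP_82ec8b_co.SC.DL4

/-!
# Line sums of a perfect function
-/

namespace MP82
namespace SC

open Finset

/-- A `±1`-valued function with vanishing autocorrelation. -/
def Perf {G : Type} [AddCommGroup G] [Fintype G] (f : G → ℤ) : Prop :=
  (∀ g, f g = 1 ∨ f g = -1) ∧ ∀ d, d ≠ 0 → ∑ g, f g * f (g + d) = 0

section lines

variable {H A B : Type} [AddCommGroup H] [Fintype H] [AddCommGroup A] [Fintype A]
  [AddCommGroup B] [Fintype B]

/-- sum over a line. -/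
def line (f : H × A × B → ℤ) (c : B →+ A) (g : H × A) : ℤ := ∑ y, f (g.1, g.2 - c y, y)

/-- shear. -/
def shear (H : Type) [AddCommGroup H] (c : B →+ A) : (H × A) × B ≃ H × A × B where
  toFun q := (q.1.1, q.1.2 - c q.2, q.2)
  invFun r := ((r.1, r.2.1 + c r.2.2), r.2.2)
  left_inv q := by simp
  right_inv r := by simp

lemma corr_line (f : H × A × B → ℤ) (c : B →+ A) (d : H × A) :
    ∑ g, line f c g * line f c (g + d) =
      ∑ e : B, ∑ g : H × A × B, f g * f (g + (d.1, d.2 - c e, e)) := by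
  have h1 : ∀ g : H × A, line f c g * line f c (g + d) =
      ∑ y, ∑ e, f (g.1, g.2 - c y, y) * f ((g.1, g.2 - c y, y) + (d.1, d.2 - c e, e)) := by
    intro g
    rw [line, line, Finset.sum_mul_sum]
    refine Finset.sum_congr rfl (fun y _ => ?_)
    rw [← Equiv.sum_comp (Equiv.addLeft y)
      (fun z => f (g.1, g.2 - c y, y) * f ((g + d).1, (g + d).2 - c z, z))]
    refine Finset.sum_congr rfl (fun e _ => ?_)
    rw [Equiv.coe_addLeft, map_add]
    congr 2
    simp only [Prod.mk_add_mk, Prod.fst_add, Prod.snd_add]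
    congr 2
    abel
  rw [Finset.sum_congr rfl (fun g _ => h1 g)]
  rw [Finset.sum_congr rfl (fun g _ => Finset.sum_comm), Finset.sum_comm]
  refine Finset.sum_congr rfl (fun e _ => ?_)
  rw [← Equiv.sum_comp (shear H c) (fun g => f g * f (g + (d.1, d.2 - c e, e))),
    Fintype.sum_prod_type (f := fun i => f ((shear H c) i) * f ((shear H c) i +
      (d.1, d.2 - c e, e)))]
  rfl

variable {f : H × A × B → ℤ} (hf : Perf f)

include hf

lemma perf_self : ∑ g, f g * f g = Fintype.card (H × A × B) := by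
  have h1 : ∀ g, f g * f g = 1 := by
    intro g
    rcases hf.1 g with h | h <;> rw [h] <;> norm_num
  rw [Finset.sum_congr rfl (fun g _ => h1 g)]
  simp

lemma line_corr (c : B →+ A) (d : H × A) (hd : d ≠ 0) :
    ∑ g, line f c g * line f c (g + d) = 0 := by
  rw [corr_line]
  refine Finset.sum_eq_zero (fun e _ => hf.2 _ (fun h => hd ?_))
  have h1 : d.1 = 0 := congrArg Prod.fst h
  have h2 : d.2 - c e = 0 := congrArg (fun z => z.2.1) h
  have h3 : e = 0 := congrArg (fun z => z.2.2) h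
  rw [h3, map_zero, sub_zero] at h2
  exact Prod.ext h1 h2

lemma line_self (c : B →+ A) :
    ∑ g, line f c g * line f c g = Fintype.card (H × A × B) := by
  have h := corr_line f c 0
  simp only [add_zero] at h
  rw [h, Finset.sum_eq_single 0]
  · have h1 : ((0 : H × A).1, (0 : H × A).2 - c 0, (0 : B)) = (0 : H × A × B) := by
      rw [map_zero, Prod.fst_zero, Prod.snd_zero, sub_zero]
      rfl
    rw [h1]
    simp only [add_zero]
    exact perf_self hf
  · intro e _ he
    exact hf.2 _ (fun h => he (congrArg (fun z => z.2.2) h))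
  · intro h
    exact absurd (Finset.mem_univ _) h

lemma line_le (c : B →+ A) (g : H × A) : |line f c g| ≤ Fintype.card B := by
  refine (Finset.abs_sum_le_sum_abs _ _).trans ?_
  have h1 : ∀ y ∈ (univ : Finset B), |f (g.1, g.2 - c y, y)| ≤ 1 := by
    intro y _
    rcases hf.1 (g.1, g.2 - c y, y) with h | h <;> rw [h] <;> norm_num
  refine (Finset.sum_le_card_nsmul _ _ 1 h1).trans ?_
  simp

lemma line_odd (hB : Odd (Fintype.card B)) (c : B →+ A) (g : H × A) : Odd (line f c g) := by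
  have h1 : ∀ y, (2 : ℤ) ∣ f (g.1, g.2 - c y, y) - 1 := by
    intro y
    rcases hf.1 (g.1, g.2 - c y, y) with h | h <;> rw [h] <;> norm_num
  have h2 : (2 : ℤ) ∣ line f c g - Fintype.card B := by
    have h3 : line f c g - Fintype.card B = ∑ y, (f (g.1, g.2 - c y, y) - 1) := by
      rw [Finset.sum_sub_distrib, line]
      simp
    rw [h3]
    exact Finset.dvd_sum (fun y _ => h1 y)
  obtain ⟨k, hk⟩ := hB
  obtain ⟨w, hw⟩ := h2
  refine ⟨w + k, ?_⟩
  have h3 : ((Fintype.card B : ℕ) : ℤ) = 2 * k + 1 := by rw [hk]; push_cast; ring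
  linarith

end lines

section unbal

set_option linter.unusedSectionVars false

variable {H : Type} [AddCommGroup H] [Fintype H] {p : ℕ} [hp : Fact p.Prime]

lemma om_ne (a : ℕ) : ((p ^ a : ℕ) : ZMod (p ^ (a + 1))) ≠ 0 := by
  intro h
  rw [ZMod.natCast_eq_zero_iff] at h
  have h1 := Nat.le_of_dvd (pow_pos hp.out.pos _) h
  have h2 : p ^ a < p ^ (a + 1) := Nat.pow_lt_pow_right hp.out.one_lt (Nat.lt_succ_self a)
  omega

/-- the case of different exponents. -/
theorem unbal (hp3 : 3 ≤ p) {x a b : ℕ} (hx : 1 ≤ x) (hneg : ∀ h : H, (p ^ x) • h = -h)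
    (hb : b ≤ a) (hpar : Even (a + 1 + b)) [NeZero (p ^ b)]
    (f : H × ZMod (p ^ (a + 1)) × ZMod (p ^ b) → ℤ) (hf : Perf f) : False := by
  obtain ⟨γ, hγ⟩ := hpar
  have hγb : b + 1 ≤ γ := by omega
  have hcard : (Fintype.card (H × ZMod (p ^ (a + 1)) × ZMod (p ^ b)) : ℤ) =
      (p : ℤ) ^ (2 * γ) * Fintype.card H := by
    rw [Fintype.card_prod, Fintype.card_prod, ZMod.card, ZMod.card, ← pow_add, hγ]
    push_cast
    rw [two_mul]
    ring
  have hdl := dl hx hneg γ (line f 0) _ (Dvd.intro _ hcard.symm) (line_self hf 0)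
    (fun d hd => line_corr hf 0 d hd)
  have hle := line_le hf (0 : ZMod (p ^ b) →+ ZMod (p ^ (a + 1)))
  rw [ZMod.card, Nat.cast_pow] at hle
  have hper : ∀ g : H × ZMod (p ^ (a + 1)),
      line f 0 (g + (0, ((p ^ a : ℕ) : ZMod (p ^ (a + 1))))) = line f 0 g := by
    intro g
    apply eq_of_sub_eq_zero
    apply Int.eq_zero_of_abs_lt_dvd (hdl g)
    have h1 := hle g
    have h2 := hle (g + (0, ((p ^ a : ℕ) : ZMod (p ^ (a + 1)))))
    have h3 := abs_sub (line f 0 (g + (0, ((p ^ a : ℕ) : ZMod (p ^ (a + 1)))))) (line f 0 g)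
    have h4 : (p : ℤ) ^ (b + 1) ≤ (p : ℤ) ^ γ :=
      pow_le_pow_right₀ (by exact_mod_cast hp.out.one_le) hγb
    have h5 : (0 : ℤ) < (p : ℤ) ^ b := by
      have : (0 : ℤ) < p := by exact_mod_cast hp.out.pos
      positivity
    have h6 : (3 : ℤ) ≤ p := by exact_mod_cast hp3
    rw [pow_succ] at h4
    nlinarith
  have h1 := line_corr hf (0 : ZMod (p ^ b) →+ ZMod (p ^ (a + 1)))
    (0, ((p ^ a : ℕ) : ZMod (p ^ (a + 1)))) (fun h => om_ne a (congrArg Prod.snd h))
  rw [Finset.sum_congr rfl (fun g _ => by rw [hper g]), line_self hf 0] at h1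
  have h2 : 0 < Fintype.card (H × ZMod (p ^ (a + 1)) × ZMod (p ^ b)) := Fintype.card_pos
  have h3 : Fintype.card (H × ZMod (p ^ (a + 1)) × ZMod (p ^ b)) = 0 := by exact_mod_cast h1
  omega

end unbal

end SC
end MP82
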