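import Mathlib
import Pool.Agent.Lib.MP_82ec8b_co.SC.Lines

/-!
# The case of equal exponents: sums over cosets of `Ω × Ω`
-/

namespace MP82
namespace SC

open Finset

section kappa

variable (p a : ℕ)

/-- multiplication by `p` from `ZMod (p ^ a)` to `ZMod (p ^ (a + 1))`. -/
def kap : ZMod (p ^ a) →+ ZMod (p ^ (a + 1)) :=
  ZMod.lift (p ^ a) ⟨zmultiplesHom (ZMod (p ^ (a + 1))) (p : ZMod (p ^ (a + 1))), by
    rw [zmultiplesHom_apply, natCast_zsmul, nsmul_eq_mul, ← Nat.cast_mul, ← pow_succ,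
      ZMod.natCast_self]⟩

variable {p a}

lemma kap_nat (n : ℕ) : kap p a (n : ZMod (p ^ a)) = (n : ZMod (p ^ (a + 1))) * p := by
  have h := ZMod.lift_coe (p ^ a) ⟨zmultiplesHom (ZMod (p ^ (a + 1))) (p : ZMod (p ^ (a + 1))), by
    rw [zmultiplesHom_apply, natCast_zsmul, nsmul_eq_mul, ← Nat.cast_mul, ← pow_succ,
      ZMod.natCast_self]⟩ (n : ℤ)
  rw [Int.cast_natCast] at h
  rw [kap, h]
  simp

lemma kap_om [Fact p.Prime] (c : ZMod (p ^ a)) (j : ZMod (p ^ (a + 1))) :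
    kap p a c * ((p ^ a : ℕ) * j) = 0 := by
  have : NeZero (p ^ a) := ⟨(pow_pos (Fact.out (p := p.Prime)).pos _).ne'⟩
  rw [← ZMod.natCast_zmod_val c, kap_nat]
  have h1 : (p : ZMod (p ^ (a + 1))) * ((p ^ a : ℕ) : ZMod (p ^ (a + 1))) = 0 := by
    rw [← Nat.cast_mul, mul_comm, ← pow_succ, ZMod.natCast_self]
  linear_combination (c.val * j : ZMod (p ^ (a + 1))) * h1

lemma exists_kap [hp : Fact p.Prime] {c : ℕ} (hc : c < p ^ a) (hc0 : c ≠ 0)
    (j : ZMod (p ^ (a + 1))) :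
    ∃ c0 : ZMod (p ^ a), kap p a c0 * (c + (p ^ a : ℕ) * j) = ((p ^ a : ℕ) : ZMod (p ^ (a + 1))) := by
  obtain ⟨v, u, hu, hcv⟩ := Nat.exists_eq_pow_mul_and_not_dvd hc0 p hp.out.ne_one
  have hu0 : 0 < u := Nat.pos_of_ne_zero (by rintro rfl; simp at hu)
  have hva : v < a := by
    have h1 : p ^ v < p ^ a := by
      refine lt_of_le_of_lt ?_ hc
      rw [hcv]
      exact Nat.le_mul_of_pos_right _ hu0
    exact (Nat.pow_lt_pow_iff_right hp.out.one_lt).1 h1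
  have hcop : Nat.Coprime u p := ((Nat.Prime.coprime_iff_not_dvd hp.out).2 hu).symm
  obtain ⟨w, -, hw⟩ := Nat.exists_mul_mod_eq_one_of_coprime hcop hp.out.one_lt
  refine ⟨((p ^ (a - 1 - v) * w : ℕ) : ZMod (p ^ a)), ?_⟩
  rw [mul_add, kap_om, add_zero, kap_nat, ← Nat.cast_mul, ← Nat.cast_mul,
    ZMod.natCast_eq_natCast_iff, hcv]
  have h2 : p ^ (a - 1 - v) * w * p * (p ^ v * u) = p ^ a * (u * w) := by
    have h3 : p ^ a = p ^ (a - 1 - v) * p * p ^ v := by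
      rw [← pow_succ, ← pow_add]
      congr 1
      omega
    rw [h3]
    ring
  rw [h2, pow_succ]
  have h4 : u * w ≡ 1 [MOD p] := by
    rw [Nat.ModEq, hw, Nat.mod_eq_of_lt hp.out.one_lt]
  have h5 := Nat.ModEq.mul_left' (p ^ a) h4
  rwa [mul_one] at h5

end kappa

section bal

set_option linter.unusedSectionVars false

variable {H : Type} [AddCommGroup H] [Fintype H] {p a : ℕ} [hp : Fact p.Prime]

instance : NeZero (p ^ a) := ⟨(pow_pos hp.out.pos _).ne'⟩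

/-- sum over a coset of `0 × Ω`. -/
def AA (f : H × ZMod (p ^ (a + 1)) × ZMod (p ^ (a + 1)) → ℤ) (h : H) (x y : ZMod (p ^ (a + 1))) : ℤ :=
  ∑ j ∈ range p, f (h, x, y + (p ^ a : ℕ) * (j : ZMod (p ^ (a + 1))))

/-- sum over a coset of `Ω × Ω`. -/
def SS (f : H × ZMod (p ^ (a + 1)) × ZMod (p ^ (a + 1)) → ℤ) (h : H) (x y : ZMod (p ^ (a + 1))) : ℤ :=
  ∑ i ∈ range p, AA f h (x + (p ^ a : ℕ) * (i : ZMod (p ^ (a + 1)))) y

/-- lines through a point. -/
lemma sum_line (f : H × ZMod (p ^ (a + 1)) × ZMod (p ^ (a + 1)) → ℤ) (h : H)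
    (x y : ZMod (p ^ (a + 1))) :
    ∑ c : ZMod (p ^ a), line f (AddMonoidHom.mulLeft (kap p a c)) (h, x + kap p a c * y) =
      ∑ z, ∑ c : ZMod (p ^ a), f (h, x - kap p a c * z, y + z) := by
  rw [Finset.sum_comm]
  refine Finset.sum_congr rfl (fun c _ => ?_)
  rw [line, ← Equiv.sum_comp (Equiv.addLeft y)]
  refine Finset.sum_congr rfl (fun z _ => ?_)
  rw [Equiv.coe_addLeft, AddMonoidHom.coe_mulLeft]
  congr 2
  congr 1
  ring

lemma sum_line_sub (f : H × ZMod (p ^ (a + 1)) × ZMod (p ^ (a + 1)) → ℤ) (h : H)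
    (x y : ZMod (p ^ (a + 1))) :
    ∑ c : ZMod (p ^ a), line f (AddMonoidHom.mulLeft (kap p a c)) (h, x + (p ^ a : ℕ) + kap p a c * y) -
      ∑ c : ZMod (p ^ a), line f (AddMonoidHom.mulLeft (kap p a c)) (h, x + kap p a c * y) =
      (p : ℤ) ^ a * (AA f h (x + (p ^ a : ℕ)) y - AA f h x y) := by
  rw [sum_line, sum_line, ← Finset.sum_sub_distrib, sum_split, Finset.sum_eq_single 0]
  · rw [AA, AA, ← Finset.sum_sub_distrib, Finset.mul_sum]
    refine Finset.sum_congr rfl (fun j _ => ?_)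
    rw [Nat.cast_zero, zero_add]
    simp only [kap_om, sub_zero]
    rw [Finset.sum_const, Finset.sum_const, Finset.card_univ, ZMod.card, nsmul_eq_mul,
      nsmul_eq_mul, Nat.cast_pow, mul_sub]
  · intro c hc hc0
    refine Finset.sum_eq_zero (fun j _ => ?_)
    obtain ⟨c0, h0⟩ := exists_kap (Finset.mem_range.1 hc) hc0 (j : ZMod (p ^ (a + 1)))
    rw [sub_eq_zero, ← Equiv.sum_comp (Equiv.addRight c0)]
    refine Finset.sum_congr rfl (fun c' _ => ?_)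
    rw [Equiv.coe_addRight, map_add, add_mul, h0]
    congr 2
    congr 1
    ring
  · intro h0
    exact absurd (Finset.mem_range.2 (pow_pos hp.out.pos a)) h0

variable {f : H × ZMod (p ^ (a + 1)) × ZMod (p ^ (a + 1)) → ℤ} {x : ℕ}

lemma line_dvd (hf : Perf f) (hx : 1 ≤ x) (hneg : ∀ h : H, (p ^ x) • h = -h)
    (c : ZMod (p ^ (a + 1)) →+ ZMod (p ^ (a + 1))) (g : H × ZMod (p ^ (a + 1))) :
    (p : ℤ) ^ (a + 1) ∣ line f c (g + (0, ((p ^ a : ℕ) : ZMod (p ^ (a + 1))))) - line f c g := by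
  have hcard : (Fintype.card (H × ZMod (p ^ (a + 1)) × ZMod (p ^ (a + 1))) : ℤ) =
      (p : ℤ) ^ (2 * (a + 1)) * Fintype.card H := by
    rw [Fintype.card_prod, Fintype.card_prod, ZMod.card]
    push_cast
    ring
  exact dl hx hneg (a + 1) (line f c) _ (Dvd.intro _ hcard.symm) (line_self hf c)
    (fun d hd => line_corr hf c d hd) g

lemma AA_congr (hf : Perf f) (hx : 1 ≤ x) (hneg : ∀ h : H, (p ^ x) • h = -h) (h : H)
    (x1 x2 : ZMod (p ^ (a + 1))) : (p : ℤ) ∣ AA f h (x1 + (p ^ a : ℕ)) x2 - AA f h x1 x2 := by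
  have h1 := sum_line_sub f h x1 x2
  rw [← Finset.sum_sub_distrib] at h1
  have h2 : (p : ℤ) ^ (a + 1) ∣ (p : ℤ) ^ a * (AA f h (x1 + (p ^ a : ℕ)) x2 - AA f h x1 x2) := by
    rw [← h1]
    refine Finset.dvd_sum (fun c _ => ?_)
    have h3 := line_dvd hf hx hneg (AddMonoidHom.mulLeft (kap p a c)) (h, x1 + kap p a c * x2)
    have h4 : (h, x1 + kap p a c * x2) + ((0 : H), ((p ^ a : ℕ) : ZMod (p ^ (a + 1)))) =
        (h, x1 + (p ^ a : ℕ) + kap p a c * x2) := by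
      rw [Prod.mk_add_mk, add_zero, add_right_comm]
    rwa [h4] at h3
  rw [pow_succ] at h2
  have h3 : (p : ℤ) ^ a ≠ 0 := by
    have : (p : ℤ) ≠ 0 := by exact_mod_cast hp.out.ne_zero
    positivity
  exact (mul_dvd_mul_iff_left h3).1 h2

lemma AA_congr' (hf : Perf f) (hx : 1 ≤ x) (hneg : ∀ h : H, (p ^ x) • h = -h) (h : H)
    (x1 x2 : ZMod (p ^ (a + 1))) (i : ℕ) :
    (p : ℤ) ∣ AA f h (x1 + (p ^ a : ℕ) * (i : ZMod (p ^ (a + 1)))) x2 - AA f h x1 x2 := by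
  induction i with
  | zero => simp
  | succ i ih =>
    have h1 := AA_congr hf hx hneg h (x1 + (p ^ a : ℕ) * (i : ZMod (p ^ (a + 1)))) x2
    have h2 : x1 + (p ^ a : ℕ) * ((i + 1 : ℕ) : ZMod (p ^ (a + 1))) =
        x1 + (p ^ a : ℕ) * (i : ZMod (p ^ (a + 1))) + (p ^ a : ℕ) := by
      push_cast
      ring
    rw [h2]
    have h3 := dvd_add h1 ih
    rwa [sub_add_sub_cancel] at h3

/-- the sums over cosets of `Ω × Ω` are divisible by `p`. -/
lemma SS_dvd (hf : Perf f) (hx : 1 ≤ x) (hneg : ∀ h : H, (p ^ x) • h = -h) (h : H)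
    (x1 x2 : ZMod (p ^ (a + 1))) : (p : ℤ) ∣ SS f h x1 x2 := by
  have h1 : (p : ℤ) ∣ ∑ i ∈ range p, (AA f h (x1 + (p ^ a : ℕ) * (i : ZMod (p ^ (a + 1)))) x2 -
      AA f h x1 x2) := Finset.dvd_sum (fun i _ => AA_congr' hf hx hneg h x1 x2 i)
  rw [Finset.sum_sub_distrib, Finset.sum_const, Finset.card_range, nsmul_eq_mul] at h1
  exact (dvd_sub_left (dvd_mul_right _ _)).1 h1

end bal

end SC
end MP82
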