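import Mathlib

/-!
# From line sums to a ternary function on the quotient
-/

namespace MP82
namespace SC

open Finset

section quot

set_option linter.unusedSectionVars false

variable {Γ Γ' : Type} [AddCommGroup Γ] [Fintype Γ] [DecidableEq Γ] [AddCommGroup Γ'] [Fintype Γ']
  [DecidableEq Γ']

/-- the extreme values. -/
def YY (F : Γ → ℤ) (q : ℤ) (g : Γ) : ℤ := if F g = q then 1 else if F g = -q then -1 else 0

/-- the ternary function on the quotient. -/
def EE (F : Γ → ℤ) (q : ℤ) (π : Γ →+ Γ') (y : Γ') : ℤ := ∑ g, if π g = y then YY F q g else 0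

variable {F : Γ → ℤ} {q : ℤ} {p : ℕ} {π : Γ →+ Γ'} {ω : Γ} {N : ℤ}

lemma step_cases (hq : 0 < q) (hqo : Odd q) (hF1 : ∀ g, |F g| ≤ q) (hF2 : ∀ g, Odd (F g))
    (hF3 : ∀ g, q ∣ F (g + ω) - F g) (g : Γ) :
    F (g + ω) = F g ∨ ((F g = q ∨ F g = -q) ∧ (F (g + ω) = q ∨ F (g + ω) = -q)) := by
  obtain ⟨c, hc⟩ := hF3 g
  obtain ⟨u, hu⟩ := hF2 g
  obtain ⟨v, hv⟩ := hF2 (g + ω)
  obtain ⟨w, hw⟩ := hqo
  have h1 := abs_le.1 (hF1 g)
  have h2 := abs_le.1 (hF1 (g + ω))
  have h3 : Even c := by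
    by_contra h
    rw [Int.not_even_iff_odd] at h
    obtain ⟨r, hr⟩ := h
    rw [hu, hv, hw, hr] at hc
    have : 2 * (v - u) = 2 * ((2 * w + 1) * r + w) + 1 := by linear_combination hc
    omega
  obtain ⟨r, hr⟩ := h3
  have h4 : r < 2 := by
    by_contra h
    push Not at h
    nlinarith
  have h5 : -2 < r := by
    by_contra h
    push Not at h
    nlinarith
  have h6 : r = 0 ∨ r = 1 ∨ r = -1 := by omega
  rcases h6 with h | h | h
  · left
    rw [hr, h] at hc
    linarith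
  · right
    rw [hr, h] at hc
    constructor
    · right; linarith
    · left; linarith
  · right
    rw [hr, h] at hc
    constructor
    · left; linarith
    · right; linarith

lemma ZZ_per (hq : 0 < q) (hqo : Odd q) (hF1 : ∀ g, |F g| ≤ q) (hF2 : ∀ g, Odd (F g))
    (hF3 : ∀ g, q ∣ F (g + ω) - F g) (g : Γ) :
    F (g + ω) - q * YY F q (g + ω) = F g - q * YY F q g := by
  rcases step_cases hq hqo hF1 hF2 hF3 g with h | ⟨h, h'⟩
  · rw [YY, YY, h]
  · have hne : -q ≠ q := by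
      intro h
      linarith
    have h1 : ∀ y, (F y = q ∨ F y = -q) → F y - q * YY F q y = 0 := by
      intro y hy
      rcases hy with hy | hy
      · rw [YY, if_pos hy, hy]; ring
      · rw [YY, if_neg (by rw [hy]; exact hne), if_pos hy, hy]; ring
    rw [h1 _ h, h1 _ h']

lemma ZZ_per' (hq : 0 < q) (hqo : Odd q) (hF1 : ∀ g, |F g| ≤ q) (hF2 : ∀ g, Odd (F g))
    (hF3 : ∀ g, q ∣ F (g + ω) - F g) (i : ℕ) (g : Γ) :
    F (g + i • ω) - q * YY F q (g + i • ω) = F g - q * YY F q g := by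
  induction i with
  | zero => simp
  | succ i ih =>
    rw [succ_nsmul, ← add_assoc, ZZ_per hq hqo hF1 hF2 hF3, ih]

lemma YY_zero_step (hq : 0 < q) (hqo : Odd q) (hF1 : ∀ g, |F g| ≤ q) (hF2 : ∀ g, Odd (F g))
    (hF3 : ∀ g, q ∣ F (g + ω) - F g) (g : Γ) : YY F q (g + ω) = 0 ↔ YY F q g = 0 := by
  have hne : -q ≠ q := by
    intro h
    linarith
  have h1 : ∀ y, (F y = q ∨ F y = -q) → YY F q y ≠ 0 := by
    intro y hy
    rcases hy with hy | hy
    · rw [YY, if_pos hy]; norm_num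
    · rw [YY, if_neg (by rw [hy]; exact hne), if_pos hy]; norm_num
  rcases step_cases hq hqo hF1 hF2 hF3 g with h | ⟨h, h'⟩
  · rw [YY, YY, h]
  · exact ⟨fun h0 => absurd h0 (h1 _ h'), fun h0 => absurd h0 (h1 _ h)⟩

lemma YY_zero_step' (hq : 0 < q) (hqo : Odd q) (hF1 : ∀ g, |F g| ≤ q) (hF2 : ∀ g, Odd (F g))
    (hF3 : ∀ g, q ∣ F (g + ω) - F g) (i : ℕ) (g : Γ) : YY F q (g + i • ω) = 0 ↔ YY F q g = 0 := by
  induction i with
  | zero => simp
  | succ i ih =>
    rw [succ_nsmul, ← add_assoc, YY_zero_step hq hqo hF1 hF2 hF3, ih]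

lemma YY_cases (g : Γ) : YY F q g = 0 ∨ YY F q g = 1 ∨ YY F q g = -1 := by
  unfold YY
  split_ifs <;> simp

lemma YY_ne (g : Γ) (h : YY F q g ≠ 0) : F g = q * YY F q g := by
  unfold YY at h ⊢
  split_ifs at h ⊢ with h1 h2
  · rw [h1]; ring
  · rw [h2]; ring
  · exact absurd rfl h

/-- autocorrelation of `Y`. -/
lemma corr_Y (hq : 0 < q) (hF5 : ∀ d, d ≠ 0 → ∑ g, F g * F (g + d) = 0)
    (hF6 : ∑ g, F g * F g = N * q ^ 2) (e : Γ)
    (hZ : ∀ g, F (g + e) - q * YY F q (g + e) = F g - q * YY F q g) (τ : Γ) :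
    ∑ g, YY F q g * YY F q (g + τ) - ∑ g, YY F q g * YY F q (g + (τ + e)) =
      N * ((if τ = 0 then 1 else 0) - (if τ + e = 0 then 1 else 0)) := by
  set Y := YY F q with hY
  set Z : Γ → ℤ := fun g => F g - q * Y g with hZd
  have hZ' : ∀ g, Z (g + e) = Z g := hZ
  have hF : ∀ g, F g = Z g + q * Y g := fun g => by rw [hZd]; ring
  have hcF : ∀ d, ∑ g, F g * F (g + d) = N * q ^ 2 * (if d = 0 then 1 else 0) := by
    intro d
    by_cases hd : d = 0
    · rw [if_pos hd, mul_one, ← hF6, hd]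
      simp
    · rw [if_neg hd, mul_zero]
      exact hF5 d hd
  have hexp : ∀ d, ∑ g, F g * F (g + d) = ∑ g, Z g * Z (g + d) + q * ∑ g, Z g * Y (g + d) +
      q * ∑ g, Y g * Z (g + d) + q ^ 2 * ∑ g, Y g * Y (g + d) := by
    intro d
    rw [Finset.mul_sum, Finset.mul_sum, Finset.mul_sum, ← Finset.sum_add_distrib,
      ← Finset.sum_add_distrib, ← Finset.sum_add_distrib]
    refine Finset.sum_congr rfl (fun g _ => ?_)
    rw [hF g, hF (g + d)]
    ring
  have h1 : ∑ g, Z g * Z (g + (τ + e)) = ∑ g, Z g * Z (g + τ) :=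
    Finset.sum_congr rfl (fun g _ => by rw [← add_assoc, hZ'])
  have h2 : ∑ g, Y g * Z (g + (τ + e)) = ∑ g, Y g * Z (g + τ) :=
    Finset.sum_congr rfl (fun g _ => by rw [← add_assoc, hZ'])
  have h3 : ∑ g, Z g * Y (g + (τ + e)) = ∑ g, Z g * Y (g + τ) := by
    rw [← Equiv.sum_comp (Equiv.addRight e) (fun g => Z g * Y (g + τ))]
    refine Finset.sum_congr rfl (fun g _ => ?_)
    rw [Equiv.coe_addRight, hZ', add_right_comm, add_assoc]
  have h4 := hexp τ
  have h5 := hexp (τ + e)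
  rw [hcF] at h4 h5
  rw [h1, h2, h3] at h5
  have h6 : q ^ 2 * ((∑ g, Y g * Y (g + τ) - ∑ g, Y g * Y (g + (τ + e))) -
      N * ((if τ = 0 then 1 else 0) - (if τ + e = 0 then 1 else 0))) = 0 := by
    linear_combination h5 - h4
  have h7 : q ^ 2 ≠ 0 := by positivity
  have h8 := (mul_eq_zero.1 h6).resolve_left h7
  linarith

variable (hπ : ∀ (φ : Γ → ℤ) (g : Γ),
    (∑ x, if π x = π g then φ x else 0) = ∑ i ∈ range p, φ (g + i • ω))

include hπ

lemma EE_pi (g : Γ) : EE F q π (π g) = ∑ i ∈ range p, YY F q (g + i • ω) := hπ _ _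

lemma EE_cases (hq : 0 < q) (hqo : Odd q) (hpo : Odd p) (hF1 : ∀ g, |F g| ≤ q)
    (hF2 : ∀ g, Odd (F g)) (hF3 : ∀ g, q ∣ F (g + ω) - F g)
    (hF4 : ∀ g, |∑ i ∈ range p, F (g + i • ω)| ≤ q) (g : Γ) :
    (YY F q g = 0 ∧ EE F q π (π g) = 0) ∨
      (YY F q g ≠ 0 ∧ (EE F q π (π g) = 1 ∨ EE F q π (π g) = -1)) := by
  rw [EE_pi hπ]
  by_cases h : YY F q g = 0
  · left
    refine ⟨h, Finset.sum_eq_zero (fun i _ => ?_)⟩
    exact (YY_zero_step' hq hqo hF1 hF2 hF3 i g).2 h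
  · right
    refine ⟨h, ?_⟩
    have h1 : ∀ i, YY F q (g + i • ω) ≠ 0 := fun i h' =>
      h ((YY_zero_step' hq hqo hF1 hF2 hF3 i g).1 h')
    have h2 : ∑ i ∈ range p, F (g + i • ω) = q * ∑ i ∈ range p, YY F q (g + i • ω) := by
      rw [Finset.mul_sum]
      exact Finset.sum_congr rfl (fun i _ => YY_ne _ (h1 i))
    have h3 := abs_le.1 (hF4 g)
    rw [h2] at h3
    have h4 : (2 : ℤ) ∣ ∑ i ∈ range p, YY F q (g + i • ω) - p := by
      have h5 : ∑ i ∈ range p, YY F q (g + i • ω) - (p : ℤ) =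
          ∑ i ∈ range p, (YY F q (g + i • ω) - 1) := by
        rw [Finset.sum_sub_distrib]
        simp
      rw [h5]
      refine Finset.dvd_sum (fun i _ => ?_)
      rcases YY_cases (F := F) (q := q) (g + i • ω) with h6 | h6 | h6
      · exact absurd h6 (h1 i)
      · rw [h6]; norm_num
      · rw [h6]; norm_num
    obtain ⟨w, hw⟩ := h4
    obtain ⟨r, hr⟩ := hpo
    have hr' : (p : ℤ) = 2 * r + 1 := by exact_mod_cast hr
    have h5 : ∑ i ∈ range p, YY F q (g + i • ω) < 2 := by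
      by_contra h
      push Not at h
      nlinarith
    have h6 : -2 < ∑ i ∈ range p, YY F q (g + i • ω) := by
      by_contra h
      push Not at h
      nlinarith
    omega

/-- autocorrelation of the ternary function. -/
lemma corr_EE (τ : Γ) : ∑ y, EE F q π y * EE F q π (y + π τ) =
    ∑ i ∈ range p, ∑ g, YY F q g * YY F q (g + (τ + i • ω)) := by
  have h1 : ∀ y, EE F q π y * EE F q π (y + π τ) =
      ∑ g, if π g = y then YY F q g * EE F q π (π g + π τ) else 0 := by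
    intro y
    rw [EE, Finset.sum_mul]
    refine Finset.sum_congr rfl (fun g _ => ?_)
    by_cases h : π g = y
    · rw [if_pos h, if_pos h, h]
    · rw [if_neg h, if_neg h, zero_mul]
  rw [Finset.sum_congr rfl (fun y _ => h1 y), Finset.sum_comm]
  have h2 : ∀ g, (∑ y, if π g = y then YY F q g * EE F q π (π g + π τ) else 0) =
      ∑ i ∈ range p, YY F q g * YY F q (g + (τ + i • ω)) := by
    intro g
    rw [Finset.sum_ite_eq, if_pos (Finset.mem_univ _), ← map_add, EE_pi hπ, Finset.mul_sum]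
    refine Finset.sum_congr rfl (fun i _ => ?_)
    rw [add_assoc]
  rw [Finset.sum_congr rfl (fun g _ => h2 g), Finset.sum_comm]

/-- sums over fibres. -/
lemma sum_fibre (hsurj : Function.Surjective π) (φ : Γ' → ℤ) :
    ∑ g, φ (π g) = p * ∑ y, φ y := by
  have h1 : ∀ g, φ (π g) = ∑ y, if π g = y then φ y else 0 := by
    intro g
    rw [Finset.sum_ite_eq, if_pos (Finset.mem_univ _)]
  rw [Finset.sum_congr rfl (fun g _ => h1 g), Finset.sum_comm, Finset.mul_sum]
  refine Finset.sum_congr rfl (fun y _ => ?_)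
  obtain ⟨g, rfl⟩ := hsurj y
  rw [hπ (fun _ => φ (π g)) g]
  simp

/-- The ternary function. -/
theorem exists_tern (hq : 0 < q) (hqo : Odd q) (hp1 : 1 < p) (hpo : Odd p)
    (hF1 : ∀ g, |F g| ≤ q) (hF2 : ∀ g, Odd (F g)) (hF3 : ∀ g, q ∣ F (g + ω) - F g)
    (hF4 : ∀ g, |∑ i ∈ range p, F (g + i • ω)| ≤ q)
    (hF5 : ∀ d, d ≠ 0 → ∑ g, F g * F (g + d) = 0) (hF6 : ∑ g, F g * F g = N * q ^ 2)
    (hsurj : Function.Surjective π) (hπω : π ω = 0) (hω : ∀ i ∈ range p, i • ω = 0 → i = 0) :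
    ∃ (ε : Γ' → ℤ) (k : ℕ), (∀ y, ε y = 0 ∨ ε y = 1 ∨ ε y = -1) ∧ ∑ y, ε y * ε y = k ∧
      (k : ℤ) * (p + 1) = N ∧ ∀ τ, τ ≠ 0 → (p : ℤ) ∣ ∑ y, ε y * ε (y + τ) := by
  have hcases := EE_cases hπ hq hqo hpo hF1 hF2 hF3 hF4
  have hval : ∀ y, EE F q π y = 0 ∨ EE F q π y = 1 ∨ EE F q π y = -1 := by
    intro y
    obtain ⟨g, rfl⟩ := hsurj y
    rcases hcases g with ⟨_, h⟩ | ⟨_, h⟩
    · exact Or.inl h
    · exact Or.inr h
  have hsq : ∀ g, YY F q g * YY F q g = EE F q π (π g) * EE F q π (π g) := by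
    intro g
    rcases hcases g with ⟨h1, h2⟩ | ⟨h1, h2⟩
    · rw [h1, h2]
    · have h3 : YY F q g * YY F q g = 1 := by
        rcases YY_cases (F := F) (q := q) g with h | h | h
        · exact absurd h h1
        · rw [h]; norm_num
        · rw [h]; norm_num
      rw [h3]
      rcases h2 with h | h <;> rw [h] <;> norm_num
  have hnn : 0 ≤ ∑ y, EE F q π y * EE F q π y :=
    Finset.sum_nonneg (fun y _ => mul_self_nonneg _)
  have hcY : ∀ (i : ℕ) (τ : Γ), ∑ g, YY F q g * YY F q (g + (τ + i • ω)) =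
      ∑ g, YY F q g * YY F q (g + τ) - N * ((if τ = 0 then 1 else 0) -
        (if τ + i • ω = 0 then 1 else 0)) := by
    intro i τ
    have h1 := corr_Y hq hF5 hF6 (i • ω) (ZZ_per' hq hqo hF1 hF2 hF3 i) τ
    linarith
  refine ⟨EE F q π, (∑ y, EE F q π y * EE F q π y).toNat, hval, ?_, ?_, ?_⟩
  · rw [Int.toNat_of_nonneg hnn]
  · rw [Int.toNat_of_nonneg hnn]
    set k := ∑ y, EE F q π y * EE F q π y with hk
    have h1 := corr_EE (F := F) (q := q) hπ 0
    rw [map_zero] at h1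
    simp only [add_zero] at h1
    rw [← hk, Finset.sum_congr rfl (fun i _ => hcY i 0)] at h1
    simp only [add_zero, zero_add, if_true] at h1
    have h2 : ∑ g, YY F q g * YY F q g = p * k := by
      rw [Finset.sum_congr rfl (fun g _ => hsq g),
        sum_fibre hπ hsurj (fun y => EE F q π y * EE F q π y)]
    rw [Finset.sum_sub_distrib, ← Finset.mul_sum, Finset.sum_sub_distrib, Finset.sum_const,
      Finset.sum_const, Finset.card_range, h2] at h1
    have h3 : ∑ i ∈ range p, (if i • ω = 0 then (1 : ℤ) else 0) = 1 := by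
      rw [Finset.sum_eq_single 0]
      · simp
      · intro i hi hi0
        rw [if_neg (fun h => hi0 (hω i hi h))]
      · intro h
        exact absurd (Finset.mem_range.2 (by omega)) h
    rw [h3, nsmul_eq_mul, nsmul_eq_mul, mul_one] at h1
    have h4 : ((p : ℤ) - 1) * (k * (p + 1) - N) = 0 := by linear_combination -h1
    have h5 : (p : ℤ) - 1 ≠ 0 := by
      have : (1 : ℤ) < p := by exact_mod_cast hp1
      omega
    have h6 := (mul_eq_zero.1 h4).resolve_left h5
    linarith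
  · intro τ' hτ'
    obtain ⟨τ, rfl⟩ := hsurj τ'
    rw [corr_EE (F := F) (q := q) hπ τ]
    have h1 : ∀ i ∈ range p, ∑ g, YY F q g * YY F q (g + (τ + i • ω)) =
        ∑ g, YY F q g * YY F q (g + τ) := by
      intro i _
      rw [hcY i τ]
      have h2 : τ ≠ 0 := by
        rintro rfl
        exact hτ' (map_zero π)
      have h3 : τ + i • ω ≠ 0 := by
        intro h
        apply hτ'
        have h4 := congrArg π h
        rwa [map_add, map_nsmul, hπω, smul_zero, add_zero, map_zero] at h4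
      rw [if_neg h2, if_neg h3]
      ring
    rw [Finset.sum_congr rfl h1, Finset.sum_const, Finset.card_range, nsmul_eq_mul]
    exact dvd_mul_right _ _

end quot

end SC
end MP82
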