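import Mathlib

/-!
# Ternary functions whose autocorrelations are divisible by `p`
-/

namespace MP82
namespace SC

open Finset

section tern

set_option linter.unusedSectionVars false

variable {Γ : Type} [AddCommGroup Γ] [Fintype Γ] [DecidableEq Γ]

/-- a finite set closed under a translation. -/
lemma card_smul_of_closed (S : Finset Γ) (τ : Γ) (h : ∀ x ∈ S, x + τ ∈ S) : S.card • τ = 0 := by
  have hinj : Function.Injective (fun x : Γ => x + τ) := fun a b hab => add_right_cancel hab
  have h1 : S.image (fun x => x + τ) = S := by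
    apply Finset.eq_of_subset_of_card_le
    · intro y hy
      obtain ⟨x, hx, rfl⟩ := Finset.mem_image.1 hy
      exact h x hx
    · rw [Finset.card_image_of_injective _ hinj]
  have h2 : ∑ x ∈ S, x = ∑ x ∈ S, (x + τ) := by
    conv_lhs => rw [← h1]
    rw [Finset.sum_image (fun a _ b _ hab => hinj hab)]
  rw [Finset.sum_add_distrib, Finset.sum_const] at h2
  simpa using h2

/-- total sum. -/
lemma sum_sq_of_corr {ε : Γ → ℤ} (h : ∀ τ, τ ≠ 0 → ∑ g, ε g * ε (g + τ) = 0) :
    (∑ g, ε g) ^ 2 = ∑ g, ε g * ε g := by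
  have h1 : (∑ g, ε g) ^ 2 = ∑ τ, ∑ g, ε g * ε (g + τ) := by
    rw [sq, Finset.sum_mul_sum, Finset.sum_comm]
    rw [Finset.sum_comm]
    conv_rhs => rw [Finset.sum_comm]
    refine Finset.sum_congr rfl (fun g _ => ?_)
    rw [← Equiv.sum_comp (Equiv.addLeft g) (fun j => ε g * ε j)]
    rfl
  rw [h1, Finset.sum_eq_single 0]
  · simp
  · intro τ _ hτ
    exact h τ hτ
  · simp

/-- an integer sum of nonnegative terms equal to one. -/
lemma exists_unique_one {ι : Type} [DecidableEq ι] (S : Finset ι) (w : ι → ℤ) (h0 : ∀ i ∈ S, 0 ≤ w i)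
    (h1 : ∑ i ∈ S, w i = 1) : ∃ i ∈ S, w i = 1 ∧ ∀ j ∈ S, j ≠ i → w j = 0 := by
  have h2 : ∃ i ∈ S, w i ≠ 0 := by
    by_contra hcon
    push Not at hcon
    rw [Finset.sum_eq_zero hcon] at h1
    exact zero_ne_one h1
  obtain ⟨i, hi, hwi⟩ := h2
  have h3 := Finset.add_sum_erase S w hi
  have h4 : 0 ≤ ∑ j ∈ S.erase i, w j :=
    Finset.sum_nonneg (fun j hj => h0 j (Finset.mem_of_mem_erase hj))
  have h5 := h0 i hi
  have h6 : w i = 1 := by omega
  have h7 : ∑ j ∈ S.erase i, w j = 0 := by omega
  refine ⟨i, hi, h6, fun j hj hji => ?_⟩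
  exact (Finset.sum_eq_zero_iff_of_nonneg
    (fun j hj => h0 j (Finset.mem_of_mem_erase hj))).1 h7 j (Finset.mem_erase.2 ⟨hji, hj⟩)

variable {p : ℕ} (ε : Γ → ℤ)

/-- The case of a support of `p + 1` elements. -/
theorem tern_L (hp : p.Prime) (hp3 : 3 ≤ p) (hε : ∀ g, ε g = 0 ∨ ε g = 1 ∨ ε g = -1)
    (hk : ∑ g, ε g * ε g = p + 1) (hcop : Nat.Coprime (Fintype.card Γ) (p + 2))
    (hcorr : ∀ τ, τ ≠ 0 → (p : ℤ) ∣ ∑ g, ε g * ε (g + τ)) (τ : Γ) (hτ : τ ≠ 0) :
    ∑ g, ε g * ε (g + τ) = 0 := by
  by_contra hne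
  -- the support
  set S : Finset Γ := univ.filter (fun g => ε g ≠ 0) with hS
  have hmS : ∀ x, x ∈ S ↔ ε x ≠ 0 := fun x => by simp [hS]
  have hsq : ∀ x ∈ S, ε x * ε x = 1 := by
    intro x hx
    rcases hε x with h | h | h
    · exact absurd h ((hmS x).1 hx)
    · rw [h]; norm_num
    · rw [h]; norm_num
  have hzero : ∀ x, x ∉ S → ε x = 0 := fun x hx => by
    by_contra h
    exact hx ((hmS x).2 h)
  have hsumS : ∀ v : Γ, ∑ g, ε g * ε (g + v) = ∑ g ∈ S, ε g * ε (g + v) := by
    intro v
    symm
    apply Finset.sum_subset (Finset.subset_univ _)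
    intro x _ hx
    rw [hzero x hx, zero_mul]
  have hcard : (S.card : ℤ) = p + 1 := by
    rw [← hk]
    have h1 := hsumS 0
    simp only [add_zero] at h1
    rw [h1, Finset.sum_congr rfl hsq]
    simp
  have hcardN : S.card = p + 1 := by exact_mod_cast hcard
  have hw : ∀ x y, -1 ≤ ε x * ε y ∧ ε x * ε y ≤ 1 := by
    intro x y
    rcases hε x with h | h | h <;> rcases hε y with h' | h' | h' <;> rw [h, h'] <;> norm_num
  -- the sign
  have hsig : ∃ σ : ℤ, (σ = 1 ∨ σ = -1) ∧ ∑ g ∈ S, ε g * ε (g + τ) = σ * p := by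
    rw [hsumS] at hne
    obtain ⟨c, hc⟩ := hcorr τ hτ
    rw [hsumS] at hc
    have h1 : ∑ g ∈ S, ε g * ε (g + τ) ≤ S.card • (1 : ℤ) :=
      Finset.sum_le_card_nsmul _ _ _ (fun x _ => (hw x _).2)
    have h2 : S.card • (-1 : ℤ) ≤ ∑ g ∈ S, ε g * ε (g + τ) :=
      Finset.card_nsmul_le_sum _ _ _ (fun x _ => (hw x _).1)
    rw [nsmul_eq_mul, hcard] at h1 h2
    rw [hc] at h1 h2 hne
    have hp3' : (3 : ℤ) ≤ p := by exact_mod_cast hp3
    have hc0 : c ≠ 0 := by
      rintro rfl
      simp at hne
    have hc1 : c < 2 := by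
      by_contra h
      push Not at h
      nlinarith
    have hc2 : -2 < c := by
      by_contra h
      push Not at h
      nlinarith
    have hc3 : c = 1 ∨ c = -1 := by omega
    exact ⟨c, hc3, by rw [hc, mul_comm]⟩
  obtain ⟨σ, hσ, hσs⟩ := hsig
  have hσσ : σ * σ = 1 := by rcases hσ with h | h <;> rw [h] <;> norm_num
  obtain ⟨xs, hxs, hxs1, hoth⟩ := exists_unique_one S (fun x => 1 - σ * (ε x * ε (x + τ)))
    (fun x _ => by
      have := hw x (x + τ)
      rcases hσ with h | h <;> rw [h] <;> linarith)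
    (by
      rw [Finset.sum_sub_distrib, ← Finset.mul_sum, hσs, Finset.sum_const, nsmul_eq_mul, hcard]
      linear_combination (-(p : ℤ)) * hσσ)
  have hx1 : ε xs * ε (xs + τ) = 0 := by
    have h1 : σ * (ε xs * ε (xs + τ)) = 0 := by linarith
    rcases mul_eq_zero.1 h1 with h | h
    · rw [h] at hσσ
      norm_num at hσσ
    · exact h
  have hx2 : ε (xs + τ) = 0 := by
    rcases mul_eq_zero.1 hx1 with h | h
    · exact absurd h ((hmS xs).1 hxs)
    · exact h
  have hx3 : ∀ x ∈ S, x ≠ xs → ε (x + τ) = σ * ε x := by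
    intro x hx hne'
    have h1 := hoth x hx hne'
    have h2 := hsq x hx
    have h3 : σ * (ε x * ε (x + τ)) = 1 := by linarith
    calc ε (x + τ) = (σ * σ) * (ε x * ε x) * ε (x + τ) := by rw [hσσ, h2]; ring
      _ = (σ * (ε x * ε (x + τ))) * (σ * ε x) := by ring
      _ = σ * ε x := by rw [h3, one_mul]
  have hx4 : ∀ x ∈ S, x ≠ xs → x + τ ∈ S := by
    intro x hx hne'
    rw [hmS, hx3 x hx hne']
    have h2 := hsq x hx
    intro h
    rcases mul_eq_zero.1 h with h' | h'
    · rw [h'] at hσσ; norm_num at hσσ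
    · rw [h'] at h2; norm_num at h2
  have hxs2 : xs + τ ∉ S := fun h => (hmS _).1 h hx2
  by_cases hA : xs - τ ∈ S
  · -- case A
    have hA1 : xs - τ ≠ xs := by
      intro h
      apply hτ
      have : xs - τ = xs - 0 := by rw [h, sub_zero]
      exact sub_right_injective this
    have h2τ : τ + τ ≠ 0 := by
      intro h
      have : xs - τ = xs + τ := by
        rw [sub_eq_add_neg, neg_eq_of_add_eq_zero_left h]
      rw [this] at hA
      exact hxs2 hA
    obtain ⟨c, hc⟩ := hcorr (τ + τ) h2τ
    rw [hsumS] at hc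
    have h5 : ∀ x ∈ S, x ≠ xs → x ≠ xs - τ → ε x * ε (x + (τ + τ)) = 1 := by
      intro x hx hne1 hne2
      have h6 := hx4 x hx hne1
      have h7 : x + τ ≠ xs := fun h => hne2 (by rw [← h, add_sub_cancel_right])
      rw [← add_assoc, hx3 _ h6 h7, hx3 x hx hne1]
      calc ε x * (σ * (σ * ε x)) = (σ * σ) * (ε x * ε x) := by ring
        _ = 1 := by rw [hσσ, hsq x hx]; norm_num
    have h6 : ∑ g ∈ S, ε g * ε (g + (τ + τ)) = (p : ℤ) - 1 + ε xs * ε (xs + (τ + τ)) := by
      rw [← Finset.add_sum_erase S _ hxs]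
      have h7 : xs - τ ∈ S.erase xs := Finset.mem_erase.2 ⟨hA1, hA⟩
      rw [← Finset.add_sum_erase _ _ h7]
      have h8 : ε (xs - τ) * ε (xs - τ + (τ + τ)) = 0 := by
        have : xs - τ + (τ + τ) = xs + τ := by
          rw [← add_assoc, sub_add_cancel]
        rw [this, hx2, mul_zero]
      rw [h8, zero_add]
      have h9 : ∀ x ∈ (S.erase xs).erase (xs - τ), ε x * ε (x + (τ + τ)) = 1 := by
        intro x hx
        obtain ⟨h10, h11⟩ := Finset.mem_erase.1 hx
        obtain ⟨h12, h13⟩ := Finset.mem_erase.1 h11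
        exact h5 x h13 h12 h10
      rw [Finset.sum_congr rfl h9, Finset.sum_const, Finset.card_erase_of_mem h7,
        Finset.card_erase_of_mem hxs, hcardN, nsmul_eq_mul, mul_one]
      have : p + 1 - 1 - 1 = p - 1 := by omega
      rw [this, Nat.cast_sub (by omega)]
      push_cast
      ring
    rw [h6] at hc
    have h7 := hw xs (xs + (τ + τ))
    have h8 : ε xs * ε (xs + (τ + τ)) = 1 := by
      have hp3' : (3 : ℤ) ≤ p := by exact_mod_cast hp3
      have hc1 : c < 2 := by
        by_contra h
        push Not at h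
        nlinarith
      have hc2 : 0 < c := by
        by_contra h
        push Not at h
        nlinarith
      have hc3 : c = 1 := by omega
      rw [hc3] at hc
      linarith
    have h9 : xs + τ + τ ∈ S := by
      rw [hmS, add_assoc]
      intro h
      rw [h, mul_zero] at h8
      norm_num at h8
    have h10 := card_smul_of_closed (insert (xs + τ) S) τ (by
      intro x hx
      rcases Finset.mem_insert.1 hx with h | h
      · rw [h]
        exact Finset.mem_insert_of_mem h9
      · by_cases hxx : x = xs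
        · rw [hxx]
          exact Finset.mem_insert_self _ _
        · exact Finset.mem_insert_of_mem (hx4 x h hxx))
    rw [Finset.card_insert_of_notMem hxs2, hcardN] at h10
    have h11 : addOrderOf τ ∣ p + 2 := addOrderOf_dvd_of_nsmul_eq_zero h10
    have h12 : addOrderOf τ ∣ Fintype.card Γ := addOrderOf_dvd_card
    have h13 : addOrderOf τ ∣ 1 := by
      rw [← hcop]
      exact Nat.dvd_gcd h12 h11
    rw [Nat.dvd_one, AddMonoid.addOrderOf_eq_one_iff] at h13
    exact hτ h13
  · -- case B
    set S0 := S.erase xs with hS0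
    have hcl : ∀ x ∈ S0, x + τ ∈ S0 := by
      intro x hx
      obtain ⟨h1, h2⟩ := Finset.mem_erase.1 hx
      refine Finset.mem_erase.2 ⟨?_, hx4 x h2 h1⟩
      intro h
      apply hA
      rw [← h, add_sub_cancel_right]
      exact h2
    have hS0c : S0.card = p := by
      rw [hS0, Finset.card_erase_of_mem hxs, hcardN]
      rfl
    have h1 : p • τ = 0 := by
      have := card_smul_of_closed S0 τ hcl
      rwa [hS0c] at this
    have hord : addOrderOf τ = p := by
      have h2 : addOrderOf τ ∣ p := addOrderOf_dvd_of_nsmul_eq_zero h1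
      rcases (Nat.dvd_prime hp).1 h2 with h3 | h3
      · exact absurd (AddMonoid.addOrderOf_eq_one_iff.1 h3) hτ
      · exact h3
    have hne0 : S0.Nonempty := by
      rw [← Finset.card_pos, hS0c]
      omega
    obtain ⟨x0, hx0⟩ := hne0
    have hx0S : x0 ∈ S := (Finset.mem_erase.1 hx0).2
    have hx0ne : x0 ≠ xs := (Finset.mem_erase.1 hx0).1
    have hstep : ∀ j : ℕ, x0 + j • τ ∈ S0 ∧ ε (x0 + j • τ) = σ ^ j * ε x0 := by
      intro j
      induction j with
      | zero => simpa using hx0
      | succ j ih =>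
        obtain ⟨i1, i2⟩ := ih
        have h3 : x0 + (j + 1) • τ = x0 + j • τ + τ := by rw [succ_nsmul, add_assoc]
        obtain ⟨i3, i4⟩ := Finset.mem_erase.1 i1
        rw [h3]
        refine ⟨hcl _ i1, ?_⟩
        rw [hx3 _ i4 i3, i2, pow_succ]
        ring
    have hσ1 : σ = 1 := by
      have h3 := (hstep p).2
      rw [h1, add_zero] at h3
      rcases hσ with h | h
      · exact h
      · exfalso
        have hodd : Odd p := hp.odd_of_ne_two (by omega)
        rw [h, hodd.neg_one_pow] at h3
        have h4 : ε x0 = 0 := by linarith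
        exact (hmS x0).1 hx0S h4
    have hall : ∀ x ∈ S0, ∃ j : ℕ, x = x0 + j • τ := by
      have h3 : (range p).image (fun j : ℕ => x0 + j • τ) = S0 := by
        apply Finset.eq_of_subset_of_card_le
        · intro y hy
          obtain ⟨j, _, rfl⟩ := Finset.mem_image.1 hy
          exact (hstep j).1
        · rw [Finset.card_image_of_injOn, Finset.card_range, hS0c]
          intro i hi j hj hij
          have hi' : i < addOrderOf τ := by
            rw [hord]
            exact Finset.mem_range.1 hi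
          have hj' : j < addOrderOf τ := by
            rw [hord]
            exact Finset.mem_range.1 hj
          exact nsmul_injOn_Iio_addOrderOf hi' hj' (add_left_cancel hij)
      intro x hx
      rw [← h3] at hx
      obtain ⟨j, _, hj⟩ := Finset.mem_image.1 hx
      exact ⟨j, hj.symm⟩
    have hconst : ∀ x ∈ S0, ε x = ε x0 := by
      intro x hx
      obtain ⟨j, rfl⟩ := hall x hx
      rw [(hstep j).2, hσ1, one_pow, one_mul]
    set δ := xs - x0 with hδ
    have hδ0 : δ ≠ 0 := by
      intro h
      exact hx0ne (sub_eq_zero.1 h).symm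
    have hx0δ : x0 + δ = xs := by rw [hδ, add_sub_cancel]
    -- translates
    have htr : ∀ (z : ℤ) x, x ∈ S0 → x + z • τ ∈ S0 := by
      intro z x hx
      obtain ⟨j, rfl⟩ := hall x hx
      have h3 : ∃ n : ℕ, (n : ℤ) • τ = z • τ := by
        have h4 := Int.toNat_of_nonneg (Int.emod_nonneg z
          (by exact_mod_cast hp.ne_zero : (p : ℤ) ≠ 0))
        refine ⟨(z % p).toNat, ?_⟩
        rw [h4]
        have h5 := Int.emod_add_mul_ediv z p
        conv_rhs => rw [← h5]
        rw [add_smul, mul_smul, smul_comm, natCast_zsmul, h1, smul_zero, add_zero]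
      obtain ⟨n, hn⟩ := h3
      rw [← hn, natCast_zsmul, add_assoc, ← add_nsmul]
      exact (hstep _).1
    have hno : ∀ x ∈ S0, x + δ ∉ S0 := by
      intro x hx hxδ
      obtain ⟨i, hi⟩ := hall x hx
      obtain ⟨j, hj⟩ := hall _ hxδ
      have h3 : δ = ((j : ℤ) - i) • τ := by
        rw [hi] at hj
        rw [sub_smul, natCast_zsmul, natCast_zsmul, eq_sub_iff_add_eq, add_comm]
        apply add_left_cancel (a := x0)
        rw [← hj, add_assoc]
      have h4 := htr ((j : ℤ) - i) x0 hx0
      rw [← h3, hx0δ] at h4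
      exact (Finset.mem_erase.1 h4).1 rfl
    obtain ⟨c, hc⟩ := hcorr δ hδ0
    have hsum : ∑ g, ε g * ε (g + δ) = ε x0 * ε xs + ε xs * ε (xs + δ) := by
      rw [Finset.sum_eq_add x0 xs hx0ne]
      · rw [hx0δ]
      · intro x _ hx
        by_cases hxS : x ∈ S
        · have h3 : x ∈ S0 := Finset.mem_erase.2 ⟨hx.2, hxS⟩
          by_cases h4 : x + δ ∈ S
          · exfalso
            by_cases h5 : x + δ = xs
            · apply hx.1
              have h6 : x + δ = x0 + δ := by rw [h5, hx0δ]
              exact add_right_cancel h6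
            · exact hno x h3 (Finset.mem_erase.2 ⟨h5, h4⟩)
          · rw [hzero _ h4, mul_zero]
        · rw [hzero x hxS, zero_mul]
      · intro h
        exact absurd (Finset.mem_univ _) h
      · intro h
        exact absurd (Finset.mem_univ _) h
    rw [hsum] at hc
    have hp3' : (3 : ℤ) ≤ p := by exact_mod_cast hp3
    have he0 := hε x0
    have hes := hε xs
    have he0' := (hmS x0).1 hx0S
    have hes' := (hmS xs).1 hxs
    have hval : ε x0 * ε xs + ε xs * ε (xs + δ) = 1 ∨ ε x0 * ε xs + ε xs * ε (xs + δ) = -1 ∨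
        ε x0 * ε xs + ε xs * ε (xs + δ) = 2 ∨ ε x0 * ε xs + ε xs * ε (xs + δ) = -2 := by
      by_cases h4 : xs + δ ∈ S
      · have h5 : xs + δ ≠ xs := fun h => hδ0 (by simpa using h)
        rw [hconst _ (Finset.mem_erase.2 ⟨h5, h4⟩)]
        rcases he0 with h | h | h
        · exact absurd h he0'
        · rcases hes with h' | h' | h'
          · exact absurd h' hes'
          · rw [h, h']; norm_num
          · rw [h, h']; norm_num
        · rcases hes with h' | h' | h'
          · exact absurd h' hes'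
          · rw [h, h']; norm_num
          · rw [h, h']; norm_num
      · rw [hzero _ h4]
        rcases he0 with h | h | h
        · exact absurd h he0'
        · rcases hes with h' | h' | h'
          · exact absurd h' hes'
          · rw [h, h']; norm_num
          · rw [h, h']; norm_num
        · rcases hes with h' | h' | h'
          · exact absurd h' hes'
          · rw [h, h']; norm_num
          · rw [h, h']; norm_num
    have hcb : -1 < c ∧ c < 1 := by
      constructor
      · by_contra h
        push Not at h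
        rcases hval with h' | h' | h' | h' <;> rw [h'] at hc <;> nlinarith
      · by_contra h
        push Not at h
        rcases hval with h' | h' | h' | h' <;> rw [h'] at hc <;> nlinarith
    have hc0 : c = 0 := by omega
    rw [hc0, mul_zero] at hc
    rw [hc] at hval
    norm_num at hval

end tern

end SC
end MP82
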