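import Mathlib
import Pool.Agent.Lib.MP_82ec8b_co.SC.Tern

/-!
# The number of elements of the support
-/

namespace MP82
namespace SC

open Finset

section tern

variable {Γ : Type} [AddCommGroup Γ] [Fintype Γ] [DecidableEq Γ]

/-- Small support: all autocorrelations vanish. -/
theorem tern_small {p k : ℕ} (ε : Γ → ℤ) (hε : ∀ g, ε g = 0 ∨ ε g = 1 ∨ ε g = -1)
    (hk : ∑ g, ε g * ε g = k) (hkp : k < p)
    (hcorr : ∀ τ, τ ≠ 0 → (p : ℤ) ∣ ∑ g, ε g * ε (g + τ)) (τ : Γ) (hτ : τ ≠ 0) :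
    ∑ g, ε g * ε (g + τ) = 0 := by
  have h1 : ∀ g, |ε g * ε (g + τ)| ≤ ε g * ε g := by
    intro g
    rcases hε g with h | h | h <;> rcases hε (g + τ) with h' | h' | h' <;> rw [h, h'] <;> norm_num
  have h2 : |∑ g, ε g * ε (g + τ)| ≤ k := by
    rw [← hk]
    exact (Finset.abs_sum_le_sum_abs _ _).trans (Finset.sum_le_sum (fun g _ => h1 g))
  apply Int.eq_zero_of_abs_lt_dvd (hcorr τ hτ)
  have h3 : (k : ℤ) < p := by exact_mod_cast hkp
  linarith

/-- The support has at least `p + 2` elements, or its size is a square. -/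
theorem tern_main {p k : ℕ} (hp : p.Prime) (hp3 : 3 ≤ p) (ε : Γ → ℤ)
    (hε : ∀ g, ε g = 0 ∨ ε g = 1 ∨ ε g = -1)
    (hk : ∑ g, ε g * ε g = k) (hkp : k ≤ p + 1) (hkne : k ≠ p)
    (hcop : k = p + 1 → Nat.Coprime (Fintype.card Γ) (p + 2))
    (hcorr : ∀ τ, τ ≠ 0 → (p : ℤ) ∣ ∑ g, ε g * ε (g + τ)) : IsSquare k := by
  have h1 : ∀ τ, τ ≠ 0 → ∑ g, ε g * ε (g + τ) = 0 := by
    rcases Nat.lt_or_ge k p with h | h
    · exact tern_small ε hε hk h hcorr
    · have h2 : k = p + 1 := by omega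
      refine tern_L ε hp hp3 hε ?_ (hcop h2) hcorr
      rw [hk, h2]
      push_cast
      rfl
  have h2 := sum_sq_of_corr h1
  rw [hk] at h2
  refine ⟨(∑ g, ε g).natAbs, ?_⟩
  have h3 : (k : ℤ) = (((∑ g, ε g).natAbs * (∑ g, ε g).natAbs : ℕ) : ℤ) := by
    rw [Int.natAbs_mul_self, ← h2, sq]
  exact_mod_cast h3

/-- `p + 1` is a square only for `p = 3`. -/
lemma eq_three {p k : ℕ} (hp : p.Prime) (hk0 : 0 < k) (hk : IsSquare k)
    (hkp : IsSquare (k * (p + 1))) : p = 3 := by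
  obtain ⟨u, rfl⟩ := hk
  obtain ⟨w, hw⟩ := hkp
  have hu : u ∣ w := by
    have h1 : u ^ 2 ∣ w ^ 2 := ⟨p + 1, by rw [sq, sq, ← hw]⟩
    exact (Nat.pow_dvd_pow_iff (by norm_num)).1 h1
  obtain ⟨r, rfl⟩ := hu
  have hu0 : 0 < u := Nat.pos_of_ne_zero (by rintro rfl; simp at hk0)
  have h1 : p + 1 = r * r := by
    have h2 : (u * u) * (p + 1) = (u * u) * (r * r) := by rw [hw]; ring
    exact Nat.eq_of_mul_eq_mul_left (Nat.mul_pos hu0 hu0) h2
  have hr : 2 ≤ r := by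
    by_contra h
    push Not at h
    have h2 := hp.two_le
    interval_cases r <;> omega
  obtain ⟨t, rfl⟩ := Nat.exists_eq_add_of_le hr
  have h2 : p = (t + 1) * (t + 3) := by
    have : p + 1 = (t + 1) * (t + 3) + 1 := by rw [h1]; ring
    omega
  rw [h2] at hp
  rcases Nat.eq_zero_or_pos t with ht | ht
  · subst ht
    simpa using h2
  · exfalso
    exact Nat.not_prime_mul (by omega) (by omega) hp

end tern

end SC
end MP82
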