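import Mathlib
import Pool.Agent.Lib.MP_82ec8b_co.SC.Bal1
import Pool.Agent.Lib.MP_82ec8b_co.SC.Quot
import Pool.Agent.Lib.MP_82ec8b_co.SC.Tern2

/-!
# The case of equal exponents: conclusion
-/

namespace MP82
namespace SC

open Finset

/-- sums over disjoint translates. -/
lemma sum_sq_shift {G ι : Type} [AddCommGroup G] [Fintype G] [DecidableEq ι] (E : Finset ι)
    (e : ι → G) (he : Set.InjOn e E) {f : G → ℤ} (hf : Perf f) :
    ∑ g, (∑ w ∈ E, f (g + e w)) * (∑ w ∈ E, f (g + e w)) = E.card * Fintype.card G := by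
  have h1 : ∀ g, (∑ w ∈ E, f (g + e w)) * (∑ w ∈ E, f (g + e w)) =
      ∑ w ∈ E, ∑ w' ∈ E, f (g + e w) * f (g + e w') := fun g => Finset.sum_mul_sum _ _ _ _
  rw [Finset.sum_congr rfl (fun g _ => h1 g), Finset.sum_comm]
  have h2 : ∀ w ∈ E, ∑ g, ∑ w' ∈ E, f (g + e w) * f (g + e w') = Fintype.card G := by
    intro w hw
    rw [Finset.sum_comm, Finset.sum_eq_single w]
    · have h3 : ∀ g, f (g + e w) * f (g + e w) = 1 := by
        intro g
        rcases hf.1 (g + e w) with h | h <;> rw [h] <;> norm_num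
      rw [Finset.sum_congr rfl (fun g _ => h3 g)]
      simp
    · intro w' hw' hne
      have h3 : e w' - e w ≠ 0 := by
        intro h
        exact hne (he hw' hw (sub_eq_zero.1 h))
      rw [← hf.2 _ h3, ← Equiv.sum_comp (Equiv.addRight (e w))
        (fun g => f g * f (g + (e w' - e w)))]
      refine Finset.sum_congr rfl (fun g _ => ?_)
      rw [Equiv.coe_addRight, add_add_sub_cancel]
    · intro h
      exact absurd hw h
  rw [Finset.sum_congr rfl h2, Finset.sum_const, nsmul_eq_mul]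

section bal

set_option linter.unusedSectionVars false

variable {H : Type} [AddCommGroup H] [Fintype H] {p a : ℕ} [hp : Fact p.Prime]

lemma om_inj {i j : ℕ} (hi : i < p) (hj : j < p)
    (h : ((p ^ a : ℕ) : ZMod (p ^ (a + 1))) * (i : ZMod (p ^ (a + 1))) =
      ((p ^ a : ℕ) : ZMod (p ^ (a + 1))) * (j : ZMod (p ^ (a + 1)))) : i = j := by
  rw [← Nat.cast_mul, ← Nat.cast_mul, ZMod.natCast_eq_natCast_iff] at h
  have h1 : p ^ (a + 1) = p ^ a * p := pow_succ p a
  rw [h1] at h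
  have h2 := Nat.ModEq.mul_left_cancel' (pow_pos hp.out.pos a).ne' h
  rw [Nat.ModEq, Nat.mod_eq_of_lt hi, Nat.mod_eq_of_lt hj] at h2
  exact h2

variable {f : H × ZMod (p ^ (a + 1)) × ZMod (p ^ (a + 1)) → ℤ} {x : ℕ}

lemma SS_eq (h : H) (s t : ZMod (p ^ (a + 1))) : SS f h s t =
    ∑ w ∈ range p ×ˢ range p, f ((h, s, t) + ((0 : H),
      ((p ^ a : ℕ) : ZMod (p ^ (a + 1))) * (w.1 : ZMod (p ^ (a + 1))),
      ((p ^ a : ℕ) : ZMod (p ^ (a + 1))) * (w.2 : ZMod (p ^ (a + 1))))) := by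
  rw [Finset.sum_product, SS]
  refine Finset.sum_congr rfl (fun i _ => ?_)
  rw [AA]
  refine Finset.sum_congr rfl (fun j _ => ?_)
  rw [Prod.mk_add_mk, Prod.mk_add_mk, add_zero]

lemma SS_odd (hp3 : 3 ≤ p) (hf : Perf f) (h : H) (s t : ZMod (p ^ (a + 1))) :
    Odd (SS f h s t) := by
  have h1 : (2 : ℤ) ∣ SS f h s t - p * p := by
    rw [SS_eq]
    have h2 : (p : ℤ) * p = ∑ w ∈ range p ×ˢ range p, (1 : ℤ) := by simp
    rw [h2, ← Finset.sum_sub_distrib]
    refine Finset.dvd_sum (fun w _ => ?_)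
    rcases hf.1 ((h, s, t) + ((0 : H),
      ((p ^ a : ℕ) : ZMod (p ^ (a + 1))) * (w.1 : ZMod (p ^ (a + 1))),
      ((p ^ a : ℕ) : ZMod (p ^ (a + 1))) * (w.2 : ZMod (p ^ (a + 1))))) with h3 | h3 <;>
      rw [h3] <;> norm_num
  obtain ⟨r, hr⟩ := hp.out.odd_of_ne_two (by omega)
  obtain ⟨w, hw⟩ := h1
  refine ⟨w + 2 * r * r + 2 * r, ?_⟩
  have h3 : (p : ℤ) = 2 * r + 1 := by exact_mod_cast hr
  rw [h3] at hw
  linear_combination hw

lemma SS_sq (hp3 : 3 ≤ p) (hf : Perf f) (hx : 1 ≤ x) (hneg : ∀ h : H, (p ^ x) • h = -h) (h : H)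
    (s t : ZMod (p ^ (a + 1))) : SS f h s t * SS f h s t = p ^ 2 := by
  have hge : ∀ g : H × ZMod (p ^ (a + 1)) × ZMod (p ^ (a + 1)),
      0 ≤ SS f g.1 g.2.1 g.2.2 * SS f g.1 g.2.1 g.2.2 - (p : ℤ) ^ 2 := by
    intro g
    obtain ⟨c, hc⟩ := SS_dvd hf hx hneg g.1 g.2.1 g.2.2
    have hodd := SS_odd hp3 hf g.1 g.2.1 g.2.2
    have hc0 : c ≠ 0 := by
      rintro rfl
      rw [hc, mul_zero] at hodd
      exact (by decide : ¬ Odd (0 : ℤ)) hodd
    rw [hc]
    have h1 : 1 ≤ c * c := by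
      have : 0 < c * c := mul_self_pos.2 hc0
      omega
    nlinarith [sq_nonneg (p : ℤ)]
  have hsum : ∑ g : H × ZMod (p ^ (a + 1)) × ZMod (p ^ (a + 1)),
      (SS f g.1 g.2.1 g.2.2 * SS f g.1 g.2.1 g.2.2 - (p : ℤ) ^ 2) = 0 := by
    rw [Finset.sum_sub_distrib]
    have h1 := sum_sq_shift (range p ×ˢ range p) (fun w : ℕ × ℕ => ((0 : H),
      ((p ^ a : ℕ) : ZMod (p ^ (a + 1))) * (w.1 : ZMod (p ^ (a + 1))),
      ((p ^ a : ℕ) : ZMod (p ^ (a + 1))) * (w.2 : ZMod (p ^ (a + 1))))) (by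
        intro w hw w' hw' heq
        rw [Finset.coe_product] at hw hw'
        obtain ⟨a1, a2⟩ := hw
        obtain ⟨b1, b2⟩ := hw'
        have e1 := congrArg (fun z => z.2.1) heq
        have e2 := congrArg (fun z => z.2.2) heq
        exact Prod.ext (om_inj (Finset.mem_range.1 a1) (Finset.mem_range.1 b1) e1)
          (om_inj (Finset.mem_range.1 a2) (Finset.mem_range.1 b2) e2)) hf
    have h2 : ∑ g : H × ZMod (p ^ (a + 1)) × ZMod (p ^ (a + 1)),
        SS f g.1 g.2.1 g.2.2 * SS f g.1 g.2.1 g.2.2 = ((range p ×ˢ range p).card : ℤ) *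
          Fintype.card (H × ZMod (p ^ (a + 1)) × ZMod (p ^ (a + 1))) := by
      rw [← h1]
      refine Finset.sum_congr rfl (fun g _ => ?_)
      rw [SS_eq]
    rw [h2, Finset.card_product, Finset.card_range, Finset.sum_const, Finset.card_univ,
      nsmul_eq_mul]
    push_cast
    ring
  have h3 := (Finset.sum_eq_zero_iff_of_nonneg (fun g _ => hge g)).1 hsum (h, s, t)
    (Finset.mem_univ _)
  linarith

/-- line sums. -/
lemma sum_F (s : H × ZMod (p ^ (a + 1))) :
    ∑ i ∈ range p, line f 0 (s + i • ((0 : H), ((p ^ a : ℕ) : ZMod (p ^ (a + 1))))) =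
      ∑ c ∈ range (p ^ a), SS f s.1 s.2 (c : ZMod (p ^ (a + 1))) := by
  have h1 : ∀ i : ℕ, line f 0 (s + i • ((0 : H), ((p ^ a : ℕ) : ZMod (p ^ (a + 1))))) =
      ∑ c ∈ range (p ^ a), AA f s.1 (s.2 + (p ^ a : ℕ) * (i : ZMod (p ^ (a + 1))))
        (c : ZMod (p ^ (a + 1))) := by
    intro i
    rw [line, sum_split]
    refine Finset.sum_congr rfl (fun c _ => ?_)
    rw [AA]
    refine Finset.sum_congr rfl (fun j _ => ?_)
    congr 1
    ext
    · simp
    · simp [mul_comm]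
    · simp
  rw [Finset.sum_congr rfl (fun i _ => h1 i), Finset.sum_comm]
  rfl

lemma sum_F_le (hp3 : 3 ≤ p) (hf : Perf f) (hx : 1 ≤ x) (hneg : ∀ h : H, (p ^ x) • h = -h)
    (s : H × ZMod (p ^ (a + 1))) :
    |∑ i ∈ range p, line f 0 (s + i • ((0 : H), ((p ^ a : ℕ) : ZMod (p ^ (a + 1)))))| ≤
      (p : ℤ) ^ (a + 1) := by
  rw [sum_F]
  refine (Finset.abs_sum_le_sum_abs _ _).trans ?_
  have h1 : ∀ c ∈ range (p ^ a), |SS f s.1 s.2 (c : ZMod (p ^ (a + 1)))| ≤ (p : ℤ) := by
    intro c _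
    apply abs_le_of_sq_le_sq
    · rw [sq, SS_sq hp3 hf hx hneg]
    · positivity
  refine (Finset.sum_le_card_nsmul _ _ _ h1).trans ?_
  rw [Finset.card_range, nsmul_eq_mul, pow_succ]
  push_cast
  exact le_rfl

/-- the projection. -/
def prj (H : Type) [AddCommGroup H] (p a : ℕ) : H × ZMod (p ^ (a + 1)) →+ H × ZMod (p ^ a) :=
  AddMonoidHom.prodMap (AddMonoidHom.id H)
    (ZMod.castHom (pow_dvd_pow p (Nat.le_succ a)) (ZMod (p ^ a))).toAddMonoidHom

lemma prj_apply (g : H × ZMod (p ^ (a + 1))) : prj H p a g =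
    (g.1, ZMod.castHom (pow_dvd_pow p (Nat.le_succ a)) (ZMod (p ^ a)) g.2) := rfl

lemma prj_surj : Function.Surjective (prj H p a) := by
  intro y
  obtain ⟨s, hs⟩ := ZMod.castHom_surjective (pow_dvd_pow p (Nat.le_succ a)) y.2
  exact ⟨(y.1, s), Prod.ext rfl hs⟩

lemma prj_om : prj H p a ((0 : H), ((p ^ a : ℕ) : ZMod (p ^ (a + 1)))) = 0 := by
  rw [prj_apply]
  ext
  · rfl
  · simp only [map_natCast, Prod.snd_zero]
    exact ZMod.natCast_self _

lemma prj_fibre [DecidableEq H] (φ : H × ZMod (p ^ (a + 1)) → ℤ) (g : H × ZMod (p ^ (a + 1))) :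
    (∑ y, if prj H p a y = prj H p a g then φ y else 0) =
      ∑ i ∈ range p, φ (g + i • ((0 : H), ((p ^ a : ℕ) : ZMod (p ^ (a + 1))))) := by
  set π := ZMod.castHom (pow_dvd_pow p (Nat.le_succ a)) (ZMod (p ^ a)) with hπ
  rw [Fintype.sum_prod_type, Finset.sum_eq_single g.1]
  · have h1 : ∀ s, (if prj H p a (g.1, s) = prj H p a g then φ (g.1, s) else 0) =
        if π s = π g.2 then φ (g.1, s) else 0 := by
      intro s
      congr 1
      rw [prj_apply, prj_apply, Prod.mk.injEq]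
      exact propext ⟨fun h => h.2, fun h => ⟨rfl, h⟩⟩
    rw [Finset.sum_congr rfl (fun s _ => h1 s), ← Equiv.sum_comp (Equiv.addLeft g.2), sum_split,
      Finset.sum_eq_single 0]
    · refine Finset.sum_congr rfl (fun i _ => ?_)
      rw [Equiv.coe_addLeft, Nat.cast_zero, zero_add, if_pos]
      · congr 1
        ext
        · simp
        · simp [mul_comm]
      · rw [map_add, map_mul, map_natCast, map_natCast, ZMod.natCast_self, zero_mul, add_zero]
    · intro c hc hc0
      refine Finset.sum_eq_zero (fun i _ => ?_)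
      rw [if_neg]
      rw [Equiv.coe_addLeft, map_add, map_add, map_mul, map_natCast, map_natCast, map_natCast,
        ZMod.natCast_self, zero_mul, add_zero]
      intro h
      have h2 : ((c : ℕ) : ZMod (p ^ a)) = 0 := by simpa using h
      rw [ZMod.natCast_eq_zero_iff] at h2
      exact absurd (Nat.le_of_dvd (Nat.pos_of_ne_zero hc0) h2)
        (not_le.2 (Finset.mem_range.1 hc))
    · intro h
      exact absurd (Finset.mem_range.2 (pow_pos hp.out.pos a)) h
  · intro h' _ hne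
    refine Finset.sum_eq_zero (fun s _ => ?_)
    rw [if_neg]
    intro h
    exact hne (congrArg Prod.fst h)
  · intro h
    exact absurd (Finset.mem_univ _) h

/-- The main result for equal exponents. -/
theorem bal (hp3 : 3 ≤ p) (hf : Perf f) (hx : 1 ≤ x) (hneg : ∀ h : H, (p ^ x) • h = -h)
    (hcopH : ¬ p ∣ Fintype.card H) (hsqH : IsSquare (Fintype.card H)) :
    (p + 1) ∣ Fintype.card H ∧ (5 ≤ p → (p + 1) * (p + 2) ≤ Fintype.card H) := by
  classical
  have hq : (0 : ℤ) < (p : ℤ) ^ (a + 1) := by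
    have : (0 : ℤ) < p := by exact_mod_cast hp.out.pos
    positivity
  have hpo : Odd p := hp.out.odd_of_ne_two (by omega)
  have hqo : Odd ((p : ℤ) ^ (a + 1)) := by
    apply Odd.pow
    exact_mod_cast hpo
  have hcardq : (Fintype.card (ZMod (p ^ (a + 1))) : ℤ) = (p : ℤ) ^ (a + 1) := by
    rw [ZMod.card]
    push_cast
    rfl
  obtain ⟨ε, k, h1, h2, h3, h4⟩ := exists_tern (F := line f 0) (q := (p : ℤ) ^ (a + 1)) (p := p)
    (π := prj H p a) (ω := ((0 : H), ((p ^ a : ℕ) : ZMod (p ^ (a + 1)))))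
    (N := (Fintype.card H : ℤ)) prj_fibre hq hqo hp.out.one_lt hpo
    (fun g => by
      have := line_le hf (0 : ZMod (p ^ (a + 1)) →+ ZMod (p ^ (a + 1))) g
      rwa [hcardq] at this)
    (fun g => line_odd hf (by rw [ZMod.card]; exact hpo.pow) 0 g)
    (fun g => line_dvd hf hx hneg 0 g)
    (sum_F_le hp3 hf hx hneg)
    (fun d hd => line_corr hf 0 d hd)
    (by
      rw [line_self hf 0, Fintype.card_prod, Fintype.card_prod, ZMod.card]
      push_cast
      ring)
    prj_surj prj_om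
    (by
      intro i hi h
      have h5 := congrArg Prod.snd h
      rw [Prod.smul_snd, Prod.snd_zero, nsmul_eq_mul] at h5
      apply om_inj (p := p) (a := a) (Finset.mem_range.1 hi) hp.out.pos
      rw [mul_comm, h5]
      simp)
  have h3' : k * (p + 1) = Fintype.card H := by exact_mod_cast h3
  refine ⟨Dvd.intro_left k h3', fun hp5 => ?_⟩
  have hk : p + 2 ≤ k := by
    by_contra hcon
    push Not at hcon
    have hkne : k ≠ p := by
      rintro rfl
      exact hcopH (Dvd.intro _ h3')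
    have hk0 : 0 < k := by
      rcases Nat.eq_zero_or_pos k with h | h
      · rw [h, zero_mul] at h3'
        have := Fintype.card_pos (α := H)
        omega
      · exact h
    have h5 : IsSquare k := by
      refine tern_main hp.out hp3 ε h1 h2 (by omega) hkne ?_ h4
      intro hkp
      rw [Fintype.card_prod, ZMod.card, ← h3', hkp]
      apply Nat.Coprime.mul_left
      · have h6 : Nat.Coprime (p + 1) (p + 2) := by
          rw [Nat.coprime_self_add_right (m := p + 1) (n := 1)]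
          exact Nat.coprime_one_right _
        exact Nat.Coprime.mul_left h6 h6
      · apply Nat.Coprime.pow_left
        rw [Nat.coprime_self_add_right (m := p) (n := 2)]
        exact (Nat.coprime_primes hp.out Nat.prime_two).2 (by omega)
    have h6 := eq_three hp.out hk0 h5 (by rw [h3']; exact hsqH)
    omega
  calc (p + 1) * (p + 2) ≤ (p + 1) * k := Nat.mul_le_mul_left _ hk
    _ = Fintype.card H := by rw [mul_comm, h3']

end bal

end SC
end MP82
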