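import Mathlib
import Pool.Agent.Lib.MP_82ec8b_co.M0
import Pool.Agent.Lib.MP_82ec8b_co.SC.Bal2

/-!
# Perfect binary arrays and self-conjugate primes
-/

namespace MP82
namespace SC

open Finset

lemma Perf.comp {G G' : Type} [AddCommGroup G] [Fintype G] [AddCommGroup G'] [Fintype G']
    (e : G ≃+ G') {f : G' → ℤ} (hf : Perf f) : Perf (fun g => f (e g)) := by
  refine ⟨fun g => hf.1 (e g), fun d hd => ?_⟩
  have h1 : e d ≠ 0 := fun h => hd (e.injective (by rw [h, map_zero]))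
  rw [← hf.2 _ h1, ← Equiv.sum_comp e.toEquiv (fun y => f y * f (y + e d))]
  refine Finset.sum_congr rfl (fun g _ => ?_)
  have h2 : e (g + d) = e g + e d := map_add e g d
  change f (e g) * f (e (g + d)) = f (e g) * f (e g + e d)
  rw [h2]

lemma perf_of_pba {s t : ℕ} [NeZero s] [NeZero t] {A : ZMod s → ZMod t → ℤ} (hA : IsPBA s t A) :
    Perf (fun y : ZMod s × ZMod t => A y.1 y.2) := by
  refine ⟨fun y => hA.1 _ _, fun d hd => ?_⟩
  rw [Fintype.sum_prod_type]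
  refine hA.2 d.1 d.2 ?_
  by_contra h
  push Not at h
  exact hd (Prod.ext h.1 h.2)

lemma sq_split {p n : ℕ} (hp : p.Prime) (hn : ¬ p ∣ n) (m : ℕ) (h : IsSquare (n * p ^ m)) :
    Even m ∧ IsSquare n := by
  induction m using Nat.strong_induction_on with
  | _ m ih =>
    rcases Nat.eq_zero_or_pos m with h0 | h0
    · subst h0
      exact ⟨⟨0, rfl⟩, by simpa using h⟩
    · obtain ⟨w, hw⟩ := h
      have h1 : p ∣ w := by
        have h2 : p ∣ w * w := by
          rw [← hw]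
          exact (dvd_pow_self p h0.ne').mul_left n
        rcases hp.dvd_mul.1 h2 with h3 | h3 <;> exact h3
      obtain ⟨w1, rfl⟩ := h1
      have hm2 : m ≠ 1 := by
        rintro rfl
        apply hn
        rw [pow_one] at hw
        have h2 : p * n = p * (p * (w1 * w1)) := by
          calc p * n = n * p := mul_comm _ _
            _ = p * w1 * (p * w1) := hw
            _ = p * (p * (w1 * w1)) := by ring
        exact ⟨w1 * w1, Nat.eq_of_mul_eq_mul_left hp.pos h2⟩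
      obtain ⟨m', rfl⟩ : ∃ m', m = m' + 2 := ⟨m - 2, by omega⟩
      have h3 : IsSquare (n * p ^ m') := by
        refine ⟨w1, ?_⟩
        have h4 : (p * p) * (n * p ^ m') = (p * p) * (w1 * w1) := by
          calc (p * p) * (n * p ^ m') = n * p ^ (m' + 2) := by ring
            _ = p * w1 * (p * w1) := hw
            _ = (p * p) * (w1 * w1) := by ring
        exact Nat.eq_of_mul_eq_mul_left (Nat.mul_pos hp.pos hp.pos) h4
      obtain ⟨⟨r, hr⟩, h5⟩ := ih m' (by omega) h3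
      exact ⟨⟨r + 1, by omega⟩, h5⟩

lemma card_sq {G : Type} [AddCommGroup G] [Fintype G] {f : G → ℤ} (hf : Perf f) :
    IsSquare (Fintype.card G) := by
  classical
  have h1 := sum_sq_of_corr (ε := f) hf.2
  have h2 : ∑ g, f g * f g = Fintype.card G := by
    have h3 : ∀ g, f g * f g = 1 := by
      intro g
      rcases hf.1 g with h | h <;> rw [h] <;> norm_num
    rw [Finset.sum_congr rfl (fun g _ => h3 g)]
    simp
  rw [h2] at h1
  refine ⟨(∑ g, f g).natAbs, ?_⟩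
  have h3 : ((Fintype.card G : ℕ) : ℤ) = (((∑ g, f g).natAbs * (∑ g, f g).natAbs : ℕ) : ℤ) := by
    rw [Int.natAbs_mul_self, ← h1, sq]
  exact_mod_cast h3

/-- the abstract form. -/
theorem main_group {H : Type} [AddCommGroup H] [Fintype H] {p a b x : ℕ} [hp : Fact p.Prime]
    (hp3 : 3 ≤ p) (hx : 1 ≤ x) (hneg : ∀ h : H, (p ^ x) • h = -h) (hab : 1 ≤ a + b)
    (hcopH : ¬ p ∣ Fintype.card H) (f : H × ZMod (p ^ a) × ZMod (p ^ b) → ℤ) (hf : Perf f) :
    a = b ∧ (p + 1) ∣ Fintype.card H ∧ (5 ≤ p → (p + 1) * (p + 2) ≤ Fintype.card H) := by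
  have h1 := card_sq hf
  rw [Fintype.card_prod, Fintype.card_prod, ZMod.card, ZMod.card, ← pow_add] at h1
  obtain ⟨hev, hsq⟩ := sq_split hp.out hcopH (a + b) h1
  rcases lt_trichotomy a b with h | h | h
  · exfalso
    obtain ⟨b', rfl⟩ : ∃ b', b = b' + 1 := ⟨b - 1, by omega⟩
    let e : H × ZMod (p ^ (b' + 1)) × ZMod (p ^ a) ≃+ H × ZMod (p ^ a) × ZMod (p ^ (b' + 1)) :=
      AddEquiv.prodCongr (AddEquiv.refl H) AddEquiv.prodComm
    refine unbal hp3 hx hneg (a := b') (b := a) (by omega) ?_ _ (Perf.comp e hf)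
    rwa [add_comm] at hev
  · subst h
    obtain ⟨a', rfl⟩ : ∃ a', a = a' + 1 := ⟨a - 1, by omega⟩
    exact ⟨rfl, bal hp3 hf hx hneg hcopH hsq⟩
  · exfalso
    obtain ⟨a', rfl⟩ : ∃ a', a = a' + 1 := ⟨a - 1, by omega⟩
    exact unbal hp3 hx hneg (by omega) hev f hf

/-- The main theorem. -/
theorem main (p s t a b x : ℕ) [NeZero (s * p ^ a)] [NeZero (t * p ^ b)] (hp : p.Prime)
    (hp2 : p ≠ 2) (hab : 1 ≤ a + b) (hs : s ∣ p ^ x + 1) (ht : t ∣ p ^ x + 1)
    (A : ZMod (s * p ^ a) → ZMod (t * p ^ b) → ℤ) (hA : IsPBA (s * p ^ a) (t * p ^ b) A) :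
    a = b ∧ (p + 1) ∣ s * t ∧ (5 ≤ p → (p + 1) * (p + 2) ≤ s * t) := by
  have : Fact p.Prime := ⟨hp⟩
  have hp3 : 3 ≤ p := by
    have := hp.two_le
    omega
  obtain ⟨x', hx', hs', ht'⟩ : ∃ x' : ℕ, 1 ≤ x' ∧ s ∣ p ^ x' + 1 ∧ t ∣ p ^ x' + 1 := by
    rcases Nat.eq_zero_or_pos x with h | h
    · subst h
      have h2 : 2 ∣ p + 1 := by
        obtain ⟨r, hr⟩ := hp.odd_of_ne_two hp2
        exact ⟨r + 1, by omega⟩
      refine ⟨1, le_rfl, ?_, ?_⟩
      · rw [pow_one]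
        exact (by simpa using hs : s ∣ 2).trans h2
      · rw [pow_one]
        exact (by simpa using ht : t ∣ 2).trans h2
    · exact ⟨x, h, hs, ht⟩
  have hcop : ∀ u : ℕ, u ∣ p ^ x' + 1 → u ≠ 0 ∧ Nat.Coprime u p := by
    intro u hu
    refine ⟨fun h => ?_, ?_⟩
    · rw [h, zero_dvd_iff] at hu
      omega
    · rw [Nat.coprime_comm, Nat.Prime.coprime_iff_not_dvd hp]
      intro h
      have h1 : p ∣ p ^ x' + 1 := h.trans hu
      have h2 : p ∣ p ^ x' := dvd_pow_self p (by omega)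
      have h3 := (Nat.dvd_add_right h2).1 h1
      exact hp.one_lt.ne' (Nat.dvd_one.1 h3)
  obtain ⟨hs0, hsc⟩ := hcop s hs'
  obtain ⟨ht0, htc⟩ := hcop t ht'
  have : NeZero s := ⟨hs0⟩
  have : NeZero t := ⟨ht0⟩
  have e1 : ZMod s × ZMod (p ^ a) ≃+ ZMod (s * p ^ a) :=
    (ZMod.chineseRemainder (hsc.pow_right a)).symm.toAddEquiv
  have e2 : ZMod t × ZMod (p ^ b) ≃+ ZMod (t * p ^ b) :=
    (ZMod.chineseRemainder (htc.pow_right b)).symm.toAddEquiv
  have hneg : ∀ h : ZMod s × ZMod t, (p ^ x') • h = -h := by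
    intro h
    rw [eq_neg_iff_add_eq_zero, ← succ_nsmul]
    ext
    · rw [Prod.smul_fst, nsmul_eq_mul, (ZMod.natCast_eq_zero_iff _ _).2 hs', zero_mul]
      rfl
    · rw [Prod.smul_snd, nsmul_eq_mul, (ZMod.natCast_eq_zero_iff _ _).2 ht', zero_mul]
      rfl
  have hcard : Fintype.card (ZMod s × ZMod t) = s * t := by
    rw [Fintype.card_prod, ZMod.card, ZMod.card]
  have hnd : ¬ p ∣ Fintype.card (ZMod s × ZMod t) := by
    rw [hcard, hp.dvd_mul]
    rintro (h | h)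
    · exact ((Nat.Prime.coprime_iff_not_dvd hp).1 hsc.symm) h
    · exact ((Nat.Prime.coprime_iff_not_dvd hp).1 htc.symm) h
  have h1 := main_group hp3 hx' hneg hab hnd _
    (Perf.comp ((AddEquiv.prodProdProdComm (ZMod s) (ZMod t) (ZMod (p ^ a)) (ZMod (p ^ b))).trans
      (AddEquiv.prodCongr e1 e2)) (perf_of_pba hA))
  rwa [hcard] at h1

end SC
end MP82
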