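import Mathlib
import Pool.Agent.Lib.MP_82ec8b_co.SC.Main

/-!
# Descent to the subgroup of order prime to `p`
-/

namespace MP82
namespace SC

open Finset

section push

variable {G G' : Type} [AddCommGroup G] [Fintype G] [AddCommGroup G'] [Fintype G'] [DecidableEq G']

/-- sums over the fibres of `π`. -/
def push (π : G →+ G') (f : G → ℤ) (y : G') : ℤ := ∑ g, if π g = y then f g else 0

lemma push_corr (π : G →+ G') (f : G → ℤ) (d : G) :
    ∑ y, push π f y * push π f (y + π d) =
      ∑ e, if π e = π d then ∑ g, f g * f (g + e) else 0 := by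
  have h1 : ∀ y, push π f y * push π f (y + π d) =
      ∑ g, if π g = y then f g * push π f (π g + π d) else 0 := by
    intro y
    rw [push, Finset.sum_mul]
    refine Finset.sum_congr rfl (fun g _ => ?_)
    by_cases h : π g = y
    · rw [if_pos h, if_pos h, h]
    · rw [if_neg h, if_neg h, zero_mul]
  rw [Finset.sum_congr rfl (fun y _ => h1 y), Finset.sum_comm]
  have h2 : ∀ g, (∑ y, if π g = y then f g * push π f (π g + π d) else 0) =
      ∑ e, if π e = π d then f g * f (g + e) else 0 := by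
    intro g
    rw [Finset.sum_ite_eq, if_pos (Finset.mem_univ _), push, Finset.mul_sum,
      ← Equiv.sum_comp (Equiv.addLeft g)]
    refine Finset.sum_congr rfl (fun e _ => ?_)
    rw [Equiv.coe_addLeft, map_add]
    by_cases h : π e = π d
    · rw [if_pos h, if_pos (by rw [h])]
    · rw [if_neg h, if_neg (fun h' => h (add_left_cancel h')), mul_zero]
  rw [Finset.sum_congr rfl (fun g _ => h2 g), Finset.sum_comm]
  refine Finset.sum_congr rfl (fun e _ => ?_)
  by_cases h : π e = π d
  · simp only [h, if_true]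
  · simp only [h, if_false, Finset.sum_const_zero]

/-- the quotient of a perfect function. -/
theorem push_perf (π : G →+ G') (hπ : Function.Surjective π) {f : G → ℤ} (hf : Perf f) {c : ℤ}
    (hc : c ≠ 0) (hP : ∀ y, push π f y = c ∨ push π f y = -c) :
    ∃ f' : G' → ℤ, Perf f' := by
  have hex : ∀ y, ∃ z : ℤ, (z = 1 ∨ z = -1) ∧ push π f y = c * z := by
    intro y
    rcases hP y with h | h
    · exact ⟨1, Or.inl rfl, by rw [h, mul_one]⟩
    · exact ⟨-1, Or.inr rfl, by rw [h]; ring⟩
  choose f' hf' hf'c using hex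
  refine ⟨f', hf', fun d hd => ?_⟩
  obtain ⟨d0, rfl⟩ := hπ d
  have h1 := push_corr π f d0
  have h2 : (∑ e, if π e = π d0 then ∑ g, f g * f (g + e) else 0) = 0 := by
    refine Finset.sum_eq_zero (fun e _ => ?_)
    by_cases h : π e = π d0
    · rw [if_pos h]
      apply hf.2
      rintro rfl
      rw [map_zero] at h
      exact hd h.symm
    · rw [if_neg h]
  rw [h2] at h1
  have h3 : c ^ 2 * ∑ g, f' g * f' (g + π d0) = 0 := by
    rw [← h1, Finset.mul_sum]
    refine Finset.sum_congr rfl (fun g _ => ?_)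
    rw [hf'c, hf'c]
    ring
  exact (mul_eq_zero.1 h3).resolve_left (pow_ne_zero 2 hc)

end push

section desc

set_option linter.unusedSectionVars false

variable {H : Type} [AddCommGroup H] [Fintype H] {p a : ℕ} [hp : Fact p.Prime]

/-- fibres in one coordinate. -/
lemma zfibre (φ : ZMod (p ^ (a + 1)) → ℤ) (s0 : ZMod (p ^ (a + 1))) :
    (∑ s, if ZMod.castHom (pow_dvd_pow p (Nat.le_succ a)) (ZMod (p ^ a)) s =
        ZMod.castHom (pow_dvd_pow p (Nat.le_succ a)) (ZMod (p ^ a)) s0 then φ s else 0) =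
      ∑ i ∈ range p, φ (s0 + (p ^ a : ℕ) * (i : ZMod (p ^ (a + 1)))) := by
  set π := ZMod.castHom (pow_dvd_pow p (Nat.le_succ a)) (ZMod (p ^ a)) with hπ
  rw [← Equiv.sum_comp (Equiv.addLeft s0), sum_split, Finset.sum_eq_single 0]
  · refine Finset.sum_congr rfl (fun i _ => ?_)
    rw [Equiv.coe_addLeft, Nat.cast_zero, zero_add, if_pos]
    rw [map_add, map_mul, map_natCast, map_natCast, ZMod.natCast_self, zero_mul, add_zero]
  · intro c hc hc0
    refine Finset.sum_eq_zero (fun i _ => ?_)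
    rw [if_neg]
    rw [Equiv.coe_addLeft, map_add, map_add, map_mul, map_natCast, map_natCast, map_natCast,
      ZMod.natCast_self, zero_mul, add_zero]
    intro h
    have h2 : ((c : ℕ) : ZMod (p ^ a)) = 0 := by simpa using h
    rw [ZMod.natCast_eq_zero_iff] at h2
    exact absurd (Nat.le_of_dvd (Nat.pos_of_ne_zero hc0) h2)
      (not_le.2 (Finset.mem_range.1 hc))
  · intro h
    exact absurd (Finset.mem_range.2 (pow_pos hp.out.pos a)) h

/-- the projection in both coordinates. -/
def prj2 (H : Type) [AddCommGroup H] (p a : ℕ) :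
    H × ZMod (p ^ (a + 1)) × ZMod (p ^ (a + 1)) →+ H × ZMod (p ^ a) × ZMod (p ^ a) :=
  AddMonoidHom.prodMap (AddMonoidHom.id H) (AddMonoidHom.prodMap
    (ZMod.castHom (pow_dvd_pow p (Nat.le_succ a)) (ZMod (p ^ a))).toAddMonoidHom
    (ZMod.castHom (pow_dvd_pow p (Nat.le_succ a)) (ZMod (p ^ a))).toAddMonoidHom)

lemma prj2_apply (h : H) (s t : ZMod (p ^ (a + 1))) : prj2 H p a (h, s, t) =
    (h, ZMod.castHom (pow_dvd_pow p (Nat.le_succ a)) (ZMod (p ^ a)) s,
      ZMod.castHom (pow_dvd_pow p (Nat.le_succ a)) (ZMod (p ^ a)) t) := rfl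

lemma prj2_surj : Function.Surjective (prj2 H p a) := by
  rintro ⟨h, y, z⟩
  obtain ⟨s, hs⟩ := ZMod.castHom_surjective (pow_dvd_pow p (Nat.le_succ a)) y
  obtain ⟨t, ht⟩ := ZMod.castHom_surjective (pow_dvd_pow p (Nat.le_succ a)) z
  refine ⟨(h, s, t), ?_⟩
  rw [prj2_apply, hs, ht]

lemma push_prj2 [DecidableEq H] (f : H × ZMod (p ^ (a + 1)) × ZMod (p ^ (a + 1)) → ℤ) (h : H)
    (s t : ZMod (p ^ (a + 1))) : push (prj2 H p a) f (prj2 H p a (h, s, t)) = SS f h s t := by
  set π := ZMod.castHom (pow_dvd_pow p (Nat.le_succ a)) (ZMod (p ^ a)) with hπ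
  rw [push, Fintype.sum_prod_type, Finset.sum_eq_single h]
  · rw [Fintype.sum_prod_type]
    have h1 : ∀ x : ZMod (p ^ (a + 1)), (∑ y, if prj2 H p a (h, x, y) = prj2 H p a (h, s, t) then
        f (h, x, y) else 0) = if π x = π s then AA f h x t else 0 := by
      intro x
      by_cases hx : π x = π s
      · rw [if_pos hx, AA, ← zfibre (fun y => f (h, x, y)) t]
        refine Finset.sum_congr rfl (fun y _ => ?_)
        congr 1
        rw [prj2_apply, prj2_apply, Prod.mk.injEq, Prod.mk.injEq]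
        exact propext ⟨fun e => e.2.2, fun e => ⟨rfl, hx, e⟩⟩
      · rw [if_neg hx]
        refine Finset.sum_eq_zero (fun y _ => ?_)
        rw [if_neg]
        intro e
        rw [prj2_apply, prj2_apply, Prod.mk.injEq, Prod.mk.injEq] at e
        exact hx e.2.1
    rw [Finset.sum_congr rfl (fun x _ => h1 x), zfibre (fun x => AA f h x t) s]
    rfl
  · intro h' _ hne
    refine Finset.sum_eq_zero (fun y _ => ?_)
    rw [if_neg]
    intro e
    exact hne (congrArg Prod.fst e)
  · intro e
    exact absurd (Finset.mem_univ _) e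

/-- one step of the descent. -/
theorem desc_step (hp3 : 3 ≤ p) {x : ℕ} (hx : 1 ≤ x) (hneg : ∀ h : H, (p ^ x) • h = -h)
    {f : H × ZMod (p ^ (a + 1)) × ZMod (p ^ (a + 1)) → ℤ} (hf : Perf f) :
    ∃ f' : H × ZMod (p ^ a) × ZMod (p ^ a) → ℤ, Perf f' := by
  classical
  refine push_perf (prj2 H p a) prj2_surj hf (c := (p : ℤ)) (by exact_mod_cast hp.out.ne_zero) ?_
  intro y
  obtain ⟨⟨h, s, t⟩, rfl⟩ := prj2_surj y
  rw [push_prj2]
  have h1 := SS_sq hp3 hf hx hneg h s t
  rw [← sq] at h1
  exact sq_eq_sq_iff_eq_or_eq_neg.1 h1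

/-- the descent. -/
theorem desc (hp3 : 3 ≤ p) {x : ℕ} (hx : 1 ≤ x) (hneg : ∀ h : H, (p ^ x) • h = -h) (a : ℕ)
    {f : H × ZMod (p ^ a) × ZMod (p ^ a) → ℤ} (hf : Perf f) :
    ∃ f' : H → ℤ, Perf f' := by
  induction a with
  | zero =>
    have hs : Subsingleton (ZMod (p ^ 0)) := by
      rw [pow_zero]
      infer_instance
    let e : H ≃+ H × ZMod (p ^ 0) × ZMod (p ^ 0) :=
      { toFun := fun h => (h, 0, 0)
        invFun := fun g => g.1
        left_inv := fun h => rfl
        right_inv := fun g => by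
          ext
          · rfl
          · exact Subsingleton.elim _ _
          · exact Subsingleton.elim _ _
        map_add' := fun g h => by
          rw [Prod.mk_add_mk, Prod.mk_add_mk, add_zero] }
    exact ⟨_, Perf.comp e hf⟩
  | succ a ih =>
    obtain ⟨f', hf'⟩ := desc_step hp3 hx hneg hf
    exact ih hf'

end desc

end SC
end MP82
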