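import Mathlib
import Pool.Agent.Lib.MP_82ec8b_co.SC.Desc

/-!
# Perfect binary arrays all of whose odd primes are self-conjugate
-/

namespace MP82
namespace SC

open Finset

lemma coprime_of_dvd {p x : ℕ} (hp : p.Prime) (hx : 1 ≤ x) {u : ℕ} (hu : u ∣ p ^ x + 1) :
    u ≠ 0 ∧ Nat.Coprime u p := by
  refine ⟨fun h => ?_, ?_⟩
  · rw [h, zero_dvd_iff] at hu
    omega
  · rw [Nat.coprime_comm, Nat.Prime.coprime_iff_not_dvd hp]
    intro h
    have h1 : p ∣ p ^ x + 1 := h.trans hu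
    have h2 : p ∣ p ^ x := dvd_pow_self p (by omega)
    have h3 := (Nat.dvd_add_right h2).1 h1
    exact hp.one_lt.ne' (Nat.dvd_one.1 h3)

/-- The main theorem, with the descent. -/
theorem main' (p s t a b x : ℕ) [NeZero s] [NeZero t] [NeZero (s * p ^ a)] [NeZero (t * p ^ b)]
    (hp : p.Prime) (hp2 : p ≠ 2) (hab : 1 ≤ a + b) (hs : s ∣ p ^ x + 1) (ht : t ∣ p ^ x + 1)
    (A : ZMod (s * p ^ a) → ZMod (t * p ^ b) → ℤ) (hA : IsPBA (s * p ^ a) (t * p ^ b) A) :
    a = b ∧ (∃ A' : ZMod s → ZMod t → ℤ, IsPBA s t A') ∧ (p + 1) ∣ s * t ∧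
      (5 ≤ p → (p + 1) * (p + 2) ≤ s * t) := by
  have : Fact p.Prime := ⟨hp⟩
  have hp3 : 3 ≤ p := by
    have := hp.two_le
    omega
  obtain ⟨x', hx', hs', ht'⟩ : ∃ x' : ℕ, 1 ≤ x' ∧ s ∣ p ^ x' + 1 ∧ t ∣ p ^ x' + 1 := by
    rcases Nat.eq_zero_or_pos x with h | h
    · subst h
      have h2 : 2 ∣ p + 1 := by
        obtain ⟨r, hr⟩ := hp.odd_of_ne_two hp2
        exact ⟨r + 1, by omega⟩
      refine ⟨1, le_rfl, ?_, ?_⟩
      · rw [pow_one]
        exact (by simpa using hs : s ∣ 2).trans h2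
      · rw [pow_one]
        exact (by simpa using ht : t ∣ 2).trans h2
    · exact ⟨x, h, hs, ht⟩
  obtain ⟨hs0, hsc⟩ := coprime_of_dvd hp hx' hs'
  obtain ⟨ht0, htc⟩ := coprime_of_dvd hp hx' ht'
  have e1 : ZMod s × ZMod (p ^ a) ≃+ ZMod (s * p ^ a) :=
    (ZMod.chineseRemainder (hsc.pow_right a)).symm.toAddEquiv
  have e2 : ZMod t × ZMod (p ^ b) ≃+ ZMod (t * p ^ b) :=
    (ZMod.chineseRemainder (htc.pow_right b)).symm.toAddEquiv
  have hneg : ∀ h : ZMod s × ZMod t, (p ^ x') • h = -h := by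
    intro h
    rw [eq_neg_iff_add_eq_zero, ← succ_nsmul]
    ext
    · rw [Prod.smul_fst, nsmul_eq_mul, (ZMod.natCast_eq_zero_iff _ _).2 hs', zero_mul]
      rfl
    · rw [Prod.smul_snd, nsmul_eq_mul, (ZMod.natCast_eq_zero_iff _ _).2 ht', zero_mul]
      rfl
  have hcard : Fintype.card (ZMod s × ZMod t) = s * t := by
    rw [Fintype.card_prod, ZMod.card, ZMod.card]
  have hnd : ¬ p ∣ Fintype.card (ZMod s × ZMod t) := by
    rw [hcard, hp.dvd_mul]
    rintro (h | h)
    · exact ((Nat.Prime.coprime_iff_not_dvd hp).1 hsc.symm) h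
    · exact ((Nat.Prime.coprime_iff_not_dvd hp).1 htc.symm) h
  have hf := Perf.comp ((AddEquiv.prodProdProdComm (ZMod s) (ZMod t) (ZMod (p ^ a))
    (ZMod (p ^ b))).trans (AddEquiv.prodCongr e1 e2)) (perf_of_pba hA)
  obtain ⟨h1, h2, h3⟩ := main_group hp3 hx' hneg hab hnd _ hf
  rw [hcard] at h2 h3
  refine ⟨h1, ?_, h2, h3⟩
  subst h1
  obtain ⟨f', hf'⟩ := desc hp3 hx' hneg a hf
  refine ⟨fun i j => f' (i, j), fun i j => hf'.1 _, fun u v huv => ?_⟩
  have h4 := hf'.2 (u, v) (by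
    intro h
    rcases huv with h5 | h5
    · exact h5 (congrArg Prod.fst h)
    · exact h5 (congrArg Prod.snd h))
  rw [Fintype.sum_prod_type] at h4
  exact h4

/-- The prime `q` is self-conjugate modulo every divisor of `s` or `t` which is prime to `q`, with a
common exponent. -/
def SelfConj (q s t : ℕ) : Prop :=
  ∃ x : ℕ, ∀ d : ℕ, Nat.Coprime d q → (d ∣ s ∨ d ∣ t) → d ∣ q ^ x + 1

lemma SelfConj.mono {q s t u v : ℕ} (h : SelfConj q s t) (hu : u ∣ s) (hv : v ∣ t) :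
    SelfConj q u v := by
  obtain ⟨x, hx⟩ := h
  refine ⟨x, fun d hd h1 => hx d hd ?_⟩
  rcases h1 with h1 | h1
  · exact Or.inl (h1.trans hu)
  · exact Or.inr (h1.trans hv)

/-- transport along equalities. -/
lemma pba_cast {s t s' t' : ℕ} [NeZero s] [NeZero t] [NeZero s'] [NeZero t'] (hs : s = s')
    (ht : t = t') (h : ∃ A : ZMod s → ZMod t → ℤ, IsPBA s t A) :
    ∃ A : ZMod s' → ZMod t' → ℤ, IsPBA s' t' A := by
  subst hs
  subst ht
  exact h

lemma odd_factor {p : ℕ} (hpodd : Odd p) (y : ℕ) :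
    ∃ w : ℤ, (p : ℤ) ^ (2 * y + 1) + 1 = ((p : ℤ) + 1) * w ∧ Odd w := by
  induction y with
  | zero => exact ⟨1, by ring, odd_one⟩
  | succ y ih =>
    obtain ⟨w, hw, hwo⟩ := ih
    refine ⟨(p : ℤ) ^ 2 * w - ((p : ℤ) - 1), ?_, ?_⟩
    · have e : (p : ℤ) ^ (2 * (y + 1) + 1) = (p : ℤ) ^ 2 * (p : ℤ) ^ (2 * y + 1) := by ring
      rw [e]
      linear_combination (p : ℤ) ^ 2 * hw
    · have hpo : Odd (p : ℤ) := by exact_mod_cast hpodd
      have h2 : Even ((p : ℤ) - 1) := hpo.sub_odd odd_one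
      exact ((hpo.pow).mul hwo).sub_even h2

lemma two_pow_le {p i x : ℕ} (hp : p.Prime) (hp2 : p ≠ 2) (h : 2 ^ i ∣ p ^ x + 1) :
    2 ^ i ≤ p + 1 := by
  have hpodd : Odd p := hp.odd_of_ne_two hp2
  rcases Nat.even_or_odd x with hx | hx
  · obtain ⟨y, rfl⟩ := hx
    have h1 : p ^ (y + y) % 4 = 1 := by
      rw [pow_add]
      have h2 : p ^ y % 2 = 1 := Nat.odd_iff.1 (hpodd.pow)
      have h3 : p ^ y % 4 = 1 ∨ p ^ y % 4 = 3 := by omega
      rw [Nat.mul_mod]
      rcases h3 with h3 | h3 <;> rw [h3]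
    have h4 : i ≤ 1 := by
      by_contra hcon
      push Not at hcon
      have h5 : 4 ∣ 2 ^ i := by
        have := Nat.pow_dvd_pow 2 (show 2 ≤ i by omega)
        simpa using this
      have h6 := h5.trans h
      omega
    calc 2 ^ i ≤ 2 ^ 1 := Nat.pow_le_pow_right (by norm_num) h4
      _ ≤ p + 1 := by
        have := hp.two_le
        omega
  · apply Nat.le_of_dvd (by omega)
    obtain ⟨y, rfl⟩ := hx
    obtain ⟨w, hw, hwo⟩ := odd_factor hpodd y
    have h2 : ((2 ^ i : ℕ) : ℤ) ∣ ((p : ℤ) + 1) * w := by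
      rw [← hw]
      exact_mod_cast h
    have h3 : IsCoprime ((2 ^ i : ℕ) : ℤ) w := by
      push_cast
      apply IsCoprime.pow_left
      obtain ⟨v, hv⟩ := hwo
      exact ⟨-v, 1, by rw [hv]; ring⟩
    have h4 := h3.dvd_of_dvd_mul_right h2
    exact_mod_cast h4

lemma eq_two_pow {n : ℕ} (hn : n ≠ 0) (h : ∀ q, q.Prime → q ∣ n → q = 2) : ∃ i, n = 2 ^ i := by
  obtain ⟨i, u, hu, hn'⟩ := Nat.exists_eq_pow_mul_and_not_dvd hn 2 (by norm_num)
  refine ⟨i, ?_⟩
  have h1 : u = 1 := by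
    by_contra hne
    obtain ⟨q, hq, hqu⟩ := Nat.exists_prime_and_dvd hne
    have h2 := h q hq (by rw [hn']; exact hqu.mul_left _)
    rw [h2] at hqu
    exact hu hqu
  rw [hn', h1, mul_one]

/-- No prime `p ≥ 5` can divide `s t`. -/
theorem no_large (N : ℕ) : ∀ s t : ℕ, s * t = N → ∀ [NeZero s] [NeZero t],
    (∀ q : ℕ, q.Prime → q ≠ 2 → q ∣ s * t → SelfConj q s t) →
    (∃ A : ZMod s → ZMod t → ℤ, IsPBA s t A) → ∀ p : ℕ, p.Prime → 5 ≤ p → ¬ p ∣ s * t := by
  induction N using Nat.strong_induction_on with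
  | _ N ih =>
    intro s t hN _ _ hsc hA p hp hp5 hps
    by_cases hr : ∃ r : ℕ, r.Prime ∧ r ≠ 2 ∧ r ≠ p ∧ r ∣ s * t
    · obtain ⟨r, hr, hr2, hrp, hrst⟩ := hr
      obtain ⟨a, u, hu, hs⟩ := Nat.exists_eq_pow_mul_and_not_dvd (NeZero.ne s) r hr.ne_one
      obtain ⟨b, v, hv, ht⟩ := Nat.exists_eq_pow_mul_and_not_dvd (NeZero.ne t) r hr.ne_one
      obtain ⟨x, hx⟩ := hsc r hr hr2 hrst
      have hu0 : u ≠ 0 := by
        rintro rfl
        exact hu (dvd_zero _)
      have hv0 : v ≠ 0 := by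
        rintro rfl
        exact hv (dvd_zero _)
      have : NeZero u := ⟨hu0⟩
      have : NeZero v := ⟨hv0⟩
      have hr0 : ∀ m, r ^ m ≠ 0 := fun m => (pow_pos hr.pos m).ne'
      have : NeZero (u * r ^ a) := ⟨Nat.mul_ne_zero hu0 (hr0 a)⟩
      have : NeZero (v * r ^ b) := ⟨Nat.mul_ne_zero hv0 (hr0 b)⟩
      have hus : u ∣ s := ⟨r ^ a, by rw [hs, mul_comm]⟩
      have hvt : v ∣ t := ⟨r ^ b, by rw [ht, mul_comm]⟩
      have hux := hx u ((Nat.Prime.coprime_iff_not_dvd hr).2 hu).symm (Or.inl hus)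
      have hvx := hx v ((Nat.Prime.coprime_iff_not_dvd hr).2 hv).symm (Or.inr hvt)
      obtain ⟨A, hA'⟩ := pba_cast (s' := u * r ^ a) (t' := v * r ^ b) (by rw [hs, mul_comm])
        (by rw [ht, mul_comm]) hA
      have hab : 1 ≤ a + b := by
        by_contra hcon
        have ha0 : a = 0 := by omega
        have hb0 : b = 0 := by omega
        rw [ha0, pow_zero, one_mul] at hs
        rw [hb0, pow_zero, one_mul] at ht
        rw [hs, ht] at hrst
        rcases hr.dvd_mul.1 hrst with h1 | h1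
        · exact hu h1
        · exact hv h1
      have hmain := main' r u v a b x hr hr2 hab hux hvx A hA'
      have hlt : u * v < N := by
        rw [← hN, hs, ht]
        have h1 : 1 < r ^ (a + b) := Nat.one_lt_pow (by omega) hr.one_lt
        have h2 : r ^ a * u * (r ^ b * v) = (u * v) * r ^ (a + b) := by
          rw [pow_add]
          ring
        rw [h2]
        exact lt_mul_of_one_lt_right (Nat.pos_of_ne_zero (Nat.mul_ne_zero hu0 hv0)) h1
      have hpuv : p ∣ u * v := by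
        have h1 : p ∣ (u * v) * r ^ (a + b) := by
          have h2 : s * t = (u * v) * r ^ (a + b) := by
            rw [hs, ht, pow_add]
            ring
          rwa [← h2]
        rcases hp.dvd_mul.1 h1 with h2 | h2
        · exact h2
        · have h3 := hp.dvd_of_dvd_pow h2
          exact absurd ((Nat.prime_dvd_prime_iff_eq hp hr).1 h3).symm hrp
      refine ih (u * v) hlt u v rfl (fun q hq hq2 hquv => ?_) hmain.2.1 p hp hp5 hpuv
      exact (hsc q hq hq2 (hquv.trans (Nat.mul_dvd_mul hus hvt))).mono hus hvt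
    · push Not at hr
      obtain ⟨a, u, hu, hs⟩ := Nat.exists_eq_pow_mul_and_not_dvd (NeZero.ne s) p hp.ne_one
      obtain ⟨b, v, hv, ht⟩ := Nat.exists_eq_pow_mul_and_not_dvd (NeZero.ne t) p hp.ne_one
      have hp2 : p ≠ 2 := by omega
      obtain ⟨x, hx⟩ := hsc p hp hp2 hps
      have hu0 : u ≠ 0 := by
        rintro rfl
        exact hu (dvd_zero _)
      have hv0 : v ≠ 0 := by
        rintro rfl
        exact hv (dvd_zero _)
      have : NeZero u := ⟨hu0⟩
      have : NeZero v := ⟨hv0⟩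
      have hp0 : ∀ m, p ^ m ≠ 0 := fun m => (pow_pos hp.pos m).ne'
      have : NeZero (u * p ^ a) := ⟨Nat.mul_ne_zero hu0 (hp0 a)⟩
      have : NeZero (v * p ^ b) := ⟨Nat.mul_ne_zero hv0 (hp0 b)⟩
      have hus : u ∣ s := ⟨p ^ a, by rw [hs, mul_comm]⟩
      have hvt : v ∣ t := ⟨p ^ b, by rw [ht, mul_comm]⟩
      have hux := hx u ((Nat.Prime.coprime_iff_not_dvd hp).2 hu).symm (Or.inl hus)
      have hvx := hx v ((Nat.Prime.coprime_iff_not_dvd hp).2 hv).symm (Or.inr hvt)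
      obtain ⟨A, hA'⟩ := pba_cast (s' := u * p ^ a) (t' := v * p ^ b) (by rw [hs, mul_comm])
        (by rw [ht, mul_comm]) hA
      have hab : 1 ≤ a + b := by
        by_contra hcon
        have ha0 : a = 0 := by omega
        have hb0 : b = 0 := by omega
        rw [ha0, pow_zero, one_mul] at hs
        rw [hb0, pow_zero, one_mul] at ht
        rw [hs, ht] at hps
        rcases hp.dvd_mul.1 hps with h1 | h1
        · exact hu h1
        · exact hv h1
      have hmain := main' p u v a b x hp hp2 hab hux hvx A hA'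
      have h1 := hmain.2.2.2 hp5
      obtain ⟨i, hi⟩ := eq_two_pow hu0 (fun q hq hqu => by
        by_contra hq2
        have h2 : q ≠ p := by
          rintro rfl
          exact hu hqu
        exact hr q hq hq2 h2 ((hqu.trans hus).mul_right _))
      obtain ⟨j, hj⟩ := eq_two_pow hv0 (fun q hq hqv => by
        by_contra hq2
        have h2 : q ≠ p := by
          rintro rfl
          exact hv hqv
        exact hr q hq hq2 h2 ((hqv.trans hvt).mul_left _))
      rw [hi] at hux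
      rw [hj] at hvx
      have h2 := two_pow_le hp hp2 hux
      have h3 := two_pow_le hp hp2 hvx
      rw [hi, hj] at h1
      have h4 : 2 ^ i * 2 ^ j ≤ (p + 1) * (p + 1) := Nat.mul_le_mul h2 h3
      nlinarith

lemma eq_two_three {n : ℕ} (hn : n ≠ 0) (h : ∀ q, q.Prime → q ∣ n → q < 5) :
    ∃ i c, n = 2 ^ i * 3 ^ c := by
  obtain ⟨c, u, hu, hn'⟩ := Nat.exists_eq_pow_mul_and_not_dvd hn 3 (by norm_num)
  have hu0 : u ≠ 0 := by
    rintro rfl
    exact hu (dvd_zero _)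
  obtain ⟨i, hi⟩ := eq_two_pow hu0 (fun q hq hqu => by
    have h1 := h q hq (by rw [hn']; exact hqu.mul_left _)
    have h2 := hq.two_le
    interval_cases q
    · rfl
    · exact absurd hqu hu
    · exact absurd hq (by norm_num))
  exact ⟨i, c, by rw [hn', hi, mul_comm]⟩

/-- The shape of the sides. -/
theorem shape (s t : ℕ) [NeZero s] [NeZero t]
    (hsc : ∀ q : ℕ, q.Prime → q ≠ 2 → q ∣ s * t → SelfConj q s t)
    (A : ZMod s → ZMod t → ℤ) (hA : IsPBA s t A) :
    ∃ i j c : ℕ, s = 2 ^ i * 3 ^ c ∧ t = 2 ^ j * 3 ^ c := by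
  have hno := no_large (s * t) s t rfl hsc ⟨A, hA⟩
  obtain ⟨i, c, hs⟩ := eq_two_three (NeZero.ne s) (fun q hq hqs => by
    by_contra h
    exact hno q hq (by omega) (hqs.mul_right _))
  obtain ⟨j, d, ht⟩ := eq_two_three (NeZero.ne t) (fun q hq hqt => by
    by_contra h
    exact hno q hq (by omega) (hqt.mul_left _))
  rcases Nat.eq_zero_or_pos (c + d) with h0 | h0
  · refine ⟨i, j, c, hs, ?_⟩
    have h1 : d = c := by omega
    rw [← h1]
    exact ht
  · have h3st : 3 ∣ s * t := by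
      rcases Nat.eq_zero_or_pos c with h1 | h1
      · have h2 : 3 ∣ t := by
          rw [ht]
          exact (dvd_pow_self 3 (by omega)).mul_left _
        exact h2.mul_left _
      · have h2 : 3 ∣ s := by
          rw [hs]
          exact (dvd_pow_self 3 (by omega)).mul_left _
        exact h2.mul_right _
    obtain ⟨x, hx⟩ := hsc 3 Nat.prime_three (by norm_num) h3st
    have hc2 : ∀ m : ℕ, Nat.Coprime (2 ^ m) 3 := fun m =>
      Nat.Coprime.pow_left m (by norm_num)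
    have hux := hx (2 ^ i) (hc2 i) (Or.inl ⟨3 ^ c, hs⟩)
    have hvx := hx (2 ^ j) (hc2 j) (Or.inr ⟨3 ^ d, ht⟩)
    have : NeZero (2 ^ i) := ⟨by positivity⟩
    have : NeZero (2 ^ j) := ⟨by positivity⟩
    have : NeZero (2 ^ i * 3 ^ c) := ⟨by positivity⟩
    have : NeZero (2 ^ j * 3 ^ d) := ⟨by positivity⟩
    obtain ⟨A', hA'⟩ := pba_cast hs ht ⟨A, hA⟩
    have hmain := main' 3 (2 ^ i) (2 ^ j) c d x Nat.prime_three (by norm_num) h0 hux hvx A' hA'
    refine ⟨i, j, c, hs, ?_⟩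
    rw [ht, hmain.1]

end SC
end MP82
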