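import Mathlib
import Pool.Agent.Lib.MP_82ec8b_co.SC.Multi

/-!
# Removing several primes
-/

namespace MP82
namespace SC

open Finset

/-- There is a perfect binary array of size `s × t`. -/
def HasPBA (s t : ℕ) : Prop :=
  ∃ (_ : NeZero s) (_ : NeZero t), ∃ A : ZMod s → ZMod t → ℤ, IsPBA s t A

theorem mainH (p s t a b x : ℕ) (hp : p.Prime) (hp2 : p ≠ 2) (hab : 1 ≤ a + b)
    (hs : s ∣ p ^ x + 1) (ht : t ∣ p ^ x + 1) (h : HasPBA (s * p ^ a) (t * p ^ b)) :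
    a = b ∧ HasPBA s t ∧ (p + 1) ∣ s * t ∧ (5 ≤ p → (p + 1) * (p + 2) ≤ s * t) := by
  obtain ⟨n1, n2, A, hA⟩ := h
  have n3 : NeZero s := ⟨left_ne_zero_of_mul n1.ne⟩
  have n4 : NeZero t := ⟨left_ne_zero_of_mul n2.ne⟩
  obtain ⟨h1, h2, h3⟩ := main' p s t a b x hp hp2 hab hs ht A hA
  exact ⟨h1, ⟨n3, n4, h2⟩, h3⟩

lemma tower_first {p i j a b x : ℕ} (hp : p.Prime) (hp2 : p ≠ 2) (hab : 1 ≤ a + b)
    (hs : 2 ^ i ∣ p ^ x + 1) (ht : 2 ^ j ∣ p ^ x + 1)
    (hA : HasPBA (2 ^ i * p ^ a) (2 ^ j * p ^ b)) : p = 3 := by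
  have h := mainH p (2 ^ i) (2 ^ j) a b x hp hp2 hab hs ht hA
  by_contra h3
  have hp5 : 5 ≤ p := by
    have h1 := hp.two_le
    by_contra hcon
    push Not at hcon
    interval_cases p
    · exact hp2 rfl
    · exact h3 rfl
    · exact absurd hp (by norm_num)
  have h1 := h.2.2.2 hp5
  have h2 := two_pow_le hp hp2 hs
  have h4 := two_pow_le hp hp2 ht
  have h5 : 2 ^ i * 2 ^ j ≤ (p + 1) * (p + 1) := Nat.mul_le_mul h2 h4
  nlinarith

theorem tower (i j : ℕ) (q a b : ℕ → ℕ) (r : ℕ) (hq : ∀ k < r, (q k).Prime ∧ q k ≠ 2)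
    (hsc : ∀ k < r, ∃ x : ℕ, (2 ^ i * ∏ l ∈ range k, q l ^ a l) ∣ q k ^ x + 1 ∧
      (2 ^ j * ∏ l ∈ range k, q l ^ b l) ∣ q k ^ x + 1)
    (hA : HasPBA (2 ^ i * ∏ l ∈ range r, q l ^ a l) (2 ^ j * ∏ l ∈ range r, q l ^ b l)) :
    (∀ k < r, a k = b k) ∧ (0 < r → q 0 = 3 ∨ a 0 = 0) := by
  induction r with
  | zero => exact ⟨fun k hk => absurd hk (Nat.not_lt_zero k), fun h => absurd h (lt_irrefl 0)⟩
  | succ r ih =>
    rw [Finset.prod_range_succ, Finset.prod_range_succ, ← mul_assoc, ← mul_assoc] at hA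
    obtain ⟨x, hx1, hx2⟩ := hsc r (Nat.lt_succ_self r)
    obtain ⟨hqp, hq2⟩ := hq r (Nat.lt_succ_self r)
    -- the smaller array
    have hsub : a r = b r ∧ HasPBA (2 ^ i * ∏ l ∈ range r, q l ^ a l)
        (2 ^ j * ∏ l ∈ range r, q l ^ b l) := by
      rcases Nat.eq_zero_or_pos (a r + b r) with h0 | h0
      · have ha0 : a r = 0 := by omega
        have hb0 : b r = 0 := by omega
        rw [ha0, hb0, pow_zero, mul_one, mul_one] at hA
        exact ⟨by omega, hA⟩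
      · have hm := mainH (q r) _ _ (a r) (b r) x hqp hq2 h0 hx1 hx2 hA
        exact ⟨hm.1, hm.2.1⟩
    obtain ⟨h1, h2⟩ := ih (fun k hk => hq k (by omega)) (fun k hk => hsc k (by omega)) hsub.2
    refine ⟨fun k hk => ?_, fun _ => ?_⟩
    · rcases Nat.lt_succ_iff_lt_or_eq.1 hk with h3 | h3
      · exact h1 k h3
      · rw [h3]
        exact hsub.1
    · rcases Nat.eq_zero_or_pos r with hr | hr
      · subst hr
        rcases Nat.eq_zero_or_pos (a 0) with h3 | h3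
        · exact Or.inr h3
        · left
          simp only [Finset.range_zero, Finset.prod_empty, mul_one] at hx1 hx2 hA
          exact tower_first hqp hq2 (by omega) hx1 hx2 hA
      · exact h2 hr

end SC
end MP82
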